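import Pool.Agent.Helper49.Chev.Data

/-!
From root data to the system used in the criterion.
-/

namespace ChevT

open RootPairing

namespace RootData

variable {ι R M N : Type*} [CommRing R] [CharZero R] [AddCommGroup M] [Module R M]
  [AddCommGroup N] [Module R N] {P : RootPairing ι R M N} [P.IsCrystallographic] {b : P.Base}
  {F : Type*} [Field F] {K : ι → Type*} [∀ r, Field (K r)] [∀ r, Algebra F (K r)]
  {G : Type*} [Group G] (D : RootData P b F K G)

omit [CharZero R] [P.IsCrystallographic] in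
theorem exists_neg (r : ι) : ∃ s, P.root s = -P.root r := by
  refine ⟨P.reflectionPerm r r, ?_⟩
  simp

omit [CharZero R] in
theorem lo_eq {r s : ι} (h : P.root s = -P.root r) :
    ∃ e : K r ≃+* K s, ∀ t, D.φ r (lo t) = D.x s (e t) :=
  D.neg r s h

open Classical in
/-- the weight `1` outside `i` -/
noncomputable def wi (i : ι) : ι → ℤ := fun j => if j = i then 0 else 1

omit [P.IsCrystallographic] in
theorem wt_wi (i r : ι) : wt b (wi i) r = hti b i r := rfl

theorem mem_normalizer_of {H : Subgroup G} {g : G} (h1 : ∀ u ∈ H, g * u * g⁻¹ ∈ H)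
    (h2 : ∀ u ∈ H, g⁻¹ * u * g ∈ H) : g ∈ Subgroup.normalizer (H : Set G) := by
  rw [Subgroup.mem_normalizer_iff]
  intro u
  refine ⟨h1 u, fun h => ?_⟩
  have := h2 _ h
  simpa [mul_assoc] using this

theorem norm_SL2 {w : ι → ℤ} {i : ι} (h : wt b w i = 0) {u : G} (hu : u ∈ D.U w 1)
    (A : SL2 (K i)) : D.φ i A * u * (D.φ i A)⁻¹ ∈ D.U w 1 := by
  have h1 : D.φ i A ∈ Subgroup.normalizer (D.U w 1 : Set G) := by
    obtain ⟨s, hs⟩ := exists_neg (P := P) i
    have h2 : wt b w s = 0 := by rw [wt_neg b w hs, h, neg_zero]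
    obtain ⟨e, he⟩ := D.lo_eq hs
    refine mem_of_up_lo (H := Subgroup.normalizer (D.U w 1 : Set G)) ?_ ?_ A
    · intro t
      apply mem_normalizer_of
      · exact D.norm_x le_rfl h.ge t
      · intro u hu
        have := D.norm_x le_rfl h.ge (-t) u hu
        rw [D.x_neg, inv_inv] at this
        exact this
    · intro t
      rw [he]
      apply mem_normalizer_of
      · exact D.norm_x le_rfl h2.ge (e t)
      · intro u hu
        have := D.norm_x le_rfl h2.ge (-(e t)) u hu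
        rw [D.x_neg, inv_inv] at this
        exact this
  exact (Subgroup.mem_normalizer_iff.1 h1 u).1 hu

omit [CharZero R] in
theorem torus_x (r s : ι) (a : (K r)ˣ) : ∃ d : (K s)ˣ, ∀ t, D.φ r (dg a) * D.x s t *
    (D.φ r (dg a))⁻¹ = D.x s (d * t) := by
  obtain ⟨d, hd⟩ := D.torus r s a
  refine ⟨d, fun t => ?_⟩
  have := hd (up t)
  rw [tw_up] at this
  exact this

theorem torus_U {w : ι → ℤ} {m : ℤ} (r : ι) (a : (K r)ˣ) :
    ∀ u ∈ D.U w m, D.φ r (dg a) * u * (D.φ r (dg a))⁻¹ ∈ D.U w m := by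
  intro u hu
  refine Subgroup.closure_induction (p := fun u _ => D.φ r (dg a) * u * (D.φ r (dg a))⁻¹ ∈
    D.U w m) ?_ ?_ ?_ ?_ hu
  · rintro _ ⟨s, t, hs, rfl⟩
    obtain ⟨d, hd⟩ := D.torus_x r s a
    rw [hd]
    exact D.x_mem_U hs _
  · simp [(D.U w m).one_mem]
  · intro a c _ _ ha hc
    have := (D.U w m).mul_mem ha hc
    simpa [mul_assoc] using this
  · intro a _ ha
    have := (D.U w m).inv_mem ha
    simpa [mul_assoc] using this

theorem pairingIn_neg {i s : ι} (hs : P.root s = -P.root i) (j : ι) :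
    P.pairingIn ℤ s j = -P.pairingIn ℤ i j := by
  apply FaithfulSMul.algebraMap_injective ℤ R
  rw [map_neg, P.algebraMap_pairingIn, P.algebraMap_pairingIn]
  rw [← P.root_coroot_eq_pairing, ← P.root_coroot_eq_pairing, hs, map_neg, LinearMap.neg_apply]

variable [Finite ι] [IsDomain R] [P.IsReduced] [Module.IsTorsionFree R M]

omit [P.IsCrystallographic] [Finite ι] [IsDomain R] [P.IsReduced] [Module.IsTorsionFree R M] in
theorem wt_one (r : ι) : wt b 1 r = ht b r := rfl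

/-- decomposition `U⁺ = X_i V_i` -/
theorem Up_dec {i : ι} (hi : i ∈ b.support) {u : G} (hu : u ∈ D.U 1 1) :
    ∃ t, ∃ v ∈ D.U (wi i) 1, u = D.φ i (up t) * v := by
  have h0 : wt b (wi i) i = 0 := hti_self b hi
  refine Subgroup.closure_induction (p := fun u _ => ∃ t, ∃ v ∈ D.U (wi i) 1,
    u = D.φ i (up t) * v) ?_ ?_ ?_ ?_ hu
  · rintro _ ⟨r, t, hr, rfl⟩
    by_cases h : r = i
    · subst h
      exact ⟨t, 1, Subgroup.one_mem _, by rw [mul_one]; rfl⟩
    · refine ⟨0, D.x r t, D.x_mem_U ?_ t, by rw [up_zero, map_one, one_mul]⟩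
      exact hti_pos_of_ht b hi hr h
  · exact ⟨0, 1, Subgroup.one_mem _, by rw [up_zero, map_one, one_mul]⟩
  · rintro _ _ _ _ ⟨t1, v1, hv1, rfl⟩ ⟨t2, v2, hv2, rfl⟩
    have h1 := D.norm_SL2 h0 hv1 (up t2)⁻¹
    rw [map_inv, inv_inv] at h1
    refine ⟨t1 + t2, _, Subgroup.mul_mem _ h1 hv2, ?_⟩
    rw [up_add, map_mul]; group
  · rintro _ _ ⟨t, v, hv, rfl⟩
    have h1 := D.norm_SL2 h0 (Subgroup.inv_mem _ hv) (up t)
    refine ⟨-t, _, h1, ?_⟩
    rw [up_neg, map_inv]; group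

theorem Um_dec {i : ι} (hi : i ∈ b.support) {u : G} (hu : u ∈ D.U (-1) 1) :
    ∃ t, ∃ v ∈ D.U (-wi i) 1, u = D.φ i (lo t) * v := by
  have h0 : wt b (-wi i) i = 0 := by rw [wt_neg_w]; simp [wt_wi, hti_self b hi]
  obtain ⟨i', hi'⟩ := exists_neg (P := P) i
  obtain ⟨e, he⟩ := D.lo_eq hi'
  refine Subgroup.closure_induction (p := fun u _ => ∃ t, ∃ v ∈ D.U (-wi i) 1,
    u = D.φ i (lo t) * v) ?_ ?_ ?_ ?_ hu
  · rintro _ ⟨r, t, hr, rfl⟩
    by_cases h : r = i'
    · subst h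
      exact ⟨e.symm t, 1, Subgroup.one_mem _, by rw [mul_one, he, RingEquiv.apply_symm_apply]⟩
    · refine ⟨0, D.x r t, D.x_mem_U ?_ t, by rw [lo_zero, map_one, one_mul]⟩
      obtain ⟨r', hr'⟩ := exists_neg (P := P) r
      rw [wt_neg_w] at hr ⊢
      have h1 : 1 ≤ ht b r' := by
        have := wt_neg b 1 hr'
        unfold ht; omega
      have h2 : r' ≠ i := by
        intro h3
        subst h3
        apply h
        apply P.root.injective
        rw [hi', hr', neg_neg]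
      have h3 := hti_pos_of_ht b hi h1 h2
      have h4 := wt_neg b (wi i) hr'
      rw [wt_wi, wt_wi] at h4
      rw [wt_wi]; omega
  · exact ⟨0, 1, Subgroup.one_mem _, by rw [lo_zero, map_one, one_mul]⟩
  · rintro _ _ _ _ ⟨t1, v1, hv1, rfl⟩ ⟨t2, v2, hv2, rfl⟩
    have h1 := D.norm_SL2 h0 hv1 (lo t2)⁻¹
    rw [map_inv, inv_inv] at h1
    refine ⟨t1 + t2, _, Subgroup.mul_mem _ h1 hv2, ?_⟩
    rw [lo_add, map_mul]; group
  · rintro _ _ ⟨t, v, hv, rfl⟩
    have h1 := D.norm_SL2 h0 (Subgroup.inv_mem _ hv) (lo t)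
    refine ⟨-t, _, h1, ?_⟩
    rw [lo_neg, map_inv]; group

omit [Finite ι] [IsDomain R] [P.IsReduced] [Module.IsTorsionFree R M] in
theorem comm_simple {i j : ι} (hi : i ∈ b.support) (hj : j ∈ b.support) (hij : i ≠ j) (s : K i)
    (t' : K j) : D.φ i (up s) * D.φ j (lo t') = D.φ j (lo t') * D.φ i (up s) := by
  obtain ⟨j', hj'⟩ := exists_neg (P := P) j
  obtain ⟨e, he⟩ := D.lo_eq hj'
  rw [he]
  set t := e t' with ht
  have h := D.comm i j' (by
      intro h
      exact b.root_ne_neg_of_ne hi hj hij (by rw [← h, hj'])) (by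
      intro h
      rw [hj', neg_inj] at h
      exact hij (P.root.injective h).symm) s t
  have h0 : {g | ∃ k, ∃ v : K k, (∃ p q : ℕ, 0 < p ∧ 0 < q ∧
      P.root k = p • P.root i + q • P.root j') ∧ g = D.φ k (up v)} = ∅ := by
    rw [Set.eq_empty_iff_forall_notMem]
    rintro g ⟨k, v, ⟨p, q, hp, hq, hk⟩, -⟩
    apply no_mixed b (k := k) (p := p) (q := q) hi hj hij (by exact_mod_cast hp)
      (by exact_mod_cast hq)
    rw [hk, hj', natCast_zsmul, natCast_zsmul, smul_neg, sub_eq_add_neg]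
  rw [h0, Subgroup.closure_empty, Subgroup.mem_bot] at h
  have h2 : D.φ i (up s) * D.x j' t * (D.φ i (up s))⁻¹ * (D.x j' t)⁻¹ = 1 := h
  rw [mul_inv_eq_one, mul_inv_eq_iff_eq_mul] at h2
  exact h2

omit [Finite ι] [IsDomain R] [P.IsReduced] [Module.IsTorsionFree R M] in
theorem U_wi_le {i : ι} : D.U (wi i) 1 ≤ D.U 1 1 := by
  apply D.U_le
  intro r t hr
  exact D.x_mem_U (ht_pos_of_hti b hr) t

omit [Finite ι] [IsDomain R] [P.IsReduced] [Module.IsTorsionFree R M] in
theorem U_wi_le' {i : ι} : D.U (-wi i) 1 ≤ D.U (-1) 1 := by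
  apply D.U_le
  intro r t hr
  apply D.x_mem_U
  rw [wt_neg_w] at hr ⊢
  obtain ⟨r', hr'⟩ := exists_neg (P := P) r
  have h1 := wt_neg b (wi i) hr'
  have h2 := wt_neg b 1 hr'
  have h3 : 1 ≤ hti b i r' := by rw [wt_wi, wt_wi] at h1; rw [wt_wi] at hr; omega
  have h4 := ht_pos_of_hti b h3
  unfold ht at h4; omega

/-- the system attached to root data -/
noncomputable def toSys : Sys G b.support (fun i => K i) where
  φ i := D.φ i
  Up := D.U 1 1
  Um := D.U (-1) 1
  Vp i := D.U (wi (i : ι)) 1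
  Vm i := D.U (-wi (i : ι)) 1
  gen H h g := by
    have := D.gen H (fun i hi A => h ⟨i, hi⟩ A)
    rw [this]; trivial
  up_mem i t := D.x_mem_U (by rw [wt_one, ht_simple b i.2]) t
  lo_mem i t := by
    obtain ⟨s, hs⟩ := exists_neg (P := P) (i : ι)
    obtain ⟨e, he⟩ := D.lo_eq hs
    rw [he]
    apply D.x_mem_U
    rw [wt_neg_w, wt_neg b 1 hs, wt_one, ht_simple b i.2, neg_neg]
  Vp_le i := D.U_wi_le
  Vm_le i := D.U_wi_le'
  Up_dec i u hu := D.Up_dec i.2 hu
  Um_dec i u hu := D.Um_dec i.2 hu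
  Vp_norm i A v hv := D.norm_SL2 (hti_self b i.2) hv A
  Vm_norm i A v hv := D.norm_SL2 (by rw [wt_neg_w]; simp [wt_wi, hti_self b i.2]) hv A
  tor i j s := D.torus j i s
  tor_p j s := D.torus_U j s
  tor_m j s := D.torus_U j s
  comm i j hij s t := D.comm_simple i.2 j.2 (fun h => hij (Subtype.ext h)) s t

end RootData

end ChevT
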