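import Pool.Agent.Helper49.Chev.SL2
import Pool.Agent.Helper49.Coset.Main

/-!
The criterion: groups generated by `SL_2`'s with parabolic decompositions, and the twisted
Gauss decomposition.
-/

namespace ChevT

open CosetT
open scoped Pointwise

/-- the data used in the criterion -/
structure Sys (G : Type*) [Group G] (I : Type*) (K : I → Type*) [∀ i, Field (K i)] where
  φ : ∀ i, SL2 (K i) →* G
  Up : Subgroup G
  Um : Subgroup G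
  Vp : I → Subgroup G
  Vm : I → Subgroup G
  gen : ∀ H : Subgroup G, (∀ i A, φ i A ∈ H) → ∀ g, g ∈ H
  up_mem : ∀ i t, φ i (up t) ∈ Up
  lo_mem : ∀ i t, φ i (lo t) ∈ Um
  Vp_le : ∀ i, Vp i ≤ Up
  Vm_le : ∀ i, Vm i ≤ Um
  Up_dec : ∀ i, ∀ u ∈ Up, ∃ t, ∃ v ∈ Vp i, u = φ i (up t) * v
  Um_dec : ∀ i, ∀ u ∈ Um, ∃ t, ∃ v ∈ Vm i, u = φ i (lo t) * v
  Vp_norm : ∀ i A, ∀ v ∈ Vp i, φ i A * v * (φ i A)⁻¹ ∈ Vp i
  Vm_norm : ∀ i A, ∀ v ∈ Vm i, φ i A * v * (φ i A)⁻¹ ∈ Vm i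
  tor : ∀ i j (s : (K j)ˣ), ∃ d : (K i)ˣ, ∀ A,
    φ j (dg s) * φ i A * (φ j (dg s))⁻¹ = φ i (tw d (RingEquiv.refl _) A)
  tor_p : ∀ j (s : (K j)ˣ), ∀ u ∈ Up, φ j (dg s) * u * (φ j (dg s))⁻¹ ∈ Up
  tor_m : ∀ j (s : (K j)ˣ), ∀ u ∈ Um, φ j (dg s) * u * (φ j (dg s))⁻¹ ∈ Um
  comm : ∀ i j, i ≠ j → ∀ s t, φ i (up s) * φ j (lo t) = φ j (lo t) * φ i (up s)

namespace Sys

variable {G : Type*} [Group G] {I : Type*} {K : I → Type*} [∀ i, Field (K i)] (S : Sys G I K)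

/-- the torus -/
def T : Subgroup G := Subgroup.closure {g | ∃ i, ∃ s : (K i)ˣ, g = S.φ i (dg s)}

theorem dg_mem (i : I) (s : (K i)ˣ) : S.φ i (dg s) ∈ S.T :=
  Subgroup.subset_closure ⟨i, s, rfl⟩

theorem T_induction {p : G → Prop} (h1 : p 1) (h2 : ∀ i (s : (K i)ˣ) t, t ∈ S.T → p t →
    p (S.φ i (dg s) * t)) : ∀ t ∈ S.T, p t := by
  intro t ht
  have : t ∈ S.T ∧ p t := by
    refine Subgroup.closure_induction_left (p := fun x _ => x ∈ S.T ∧ p x) ⟨S.T.one_mem, h1⟩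
      ?_ ?_ ht
    · rintro _ ⟨i, s, rfl⟩ y _ ⟨hy, hpy⟩
      exact ⟨S.T.mul_mem (S.dg_mem i s) hy, h2 i s y hy hpy⟩
    · rintro _ ⟨i, s, rfl⟩ y _ ⟨hy, hpy⟩
      rw [← map_inv, ← dg_inv]
      exact ⟨S.T.mul_mem (S.dg_mem i s⁻¹) hy, h2 i s⁻¹ y hy hpy⟩
  exact this.2

theorem T_conj (i : I) : ∀ t ∈ S.T, ∃ d : (K i)ˣ, ∀ A, t * S.φ i A * t⁻¹ =
    S.φ i (tw d (RingEquiv.refl _) A) := by
  refine S.T_induction (p := fun t => ∃ d : (K i)ˣ, ∀ A, t * S.φ i A * t⁻¹ =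
    S.φ i (tw d (RingEquiv.refl _) A)) ?_ ?_
  · refine ⟨1, fun A => ?_⟩
    rw [one_mul, inv_one, mul_one]
    congr 1
    apply ext2 <;> simp [tw]
  · rintro j s t _ ⟨d, hd⟩
    obtain ⟨e, he⟩ := S.tor i j s
    refine ⟨e * d, fun A => ?_⟩
    rw [← tw_tw, ← he, ← hd]
    group

theorem T_p : ∀ t ∈ S.T, ∀ u ∈ S.Up, t * u * t⁻¹ ∈ S.Up := by
  refine S.T_induction (p := fun t => ∀ u ∈ S.Up, t * u * t⁻¹ ∈ S.Up) ?_ ?_
  · intro u hu; simpa using hu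
  · intro i s t _ ih u hu
    have := S.tor_p i s _ (ih u hu)
    have e : S.φ i (dg s) * t * u * (S.φ i (dg s) * t)⁻¹ =
      S.φ i (dg s) * (t * u * t⁻¹) * (S.φ i (dg s))⁻¹ := by group
    rw [e]; exact this

theorem T_m : ∀ t ∈ S.T, ∀ u ∈ S.Um, t * u * t⁻¹ ∈ S.Um := by
  refine S.T_induction (p := fun t => ∀ u ∈ S.Um, t * u * t⁻¹ ∈ S.Um) ?_ ?_
  · intro u hu; simpa using hu
  · intro i s t _ ih u hu
    have := S.tor_m i s _ (ih u hu)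
    have e : S.φ i (dg s) * t * u * (S.φ i (dg s) * t)⁻¹ =
      S.φ i (dg s) * (t * u * t⁻¹) * (S.φ i (dg s))⁻¹ := by group
    rw [e]; exact this

/-- `G = U⁺ U⁻ T U⁺` -/
theorem big (g : G) : ∃ u ∈ S.Up, ∃ a ∈ S.Um, ∃ t ∈ S.T, ∃ b ∈ S.Up, g = u * (a * t * b) := by
  set X : Set G := {g | ∃ u ∈ S.Up, ∃ a ∈ S.Um, ∃ t ∈ S.T, ∃ b ∈ S.Up, g = u * (a * t * b)}
    with hX
  have step : ∀ i A, ∀ g ∈ X, S.φ i A * g ∈ X := by
    rintro i A _ ⟨u, hu, a, ha, t, ht, b, hb, rfl⟩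
    obtain ⟨x, v, hv, rfl⟩ := S.Up_dec i u hu
    obtain ⟨y, w, hw, rfl⟩ := S.Um_dec i a ha
    obtain ⟨x2, y2, s2, x3, hA⟩ := eq_up_lo_dg_up (A * up x * lo y)
    -- v' = φ(A up x) v φ(A up x)⁻¹
    have hv' := S.Vp_norm i (A * up x) v hv
    -- w' = φ(up x3) w φ(up x3)⁻¹, w'' = φ(dg s2) w' φ(dg s2)⁻¹
    have hw' := S.Vm_norm i (dg s2 * up x3) w hw
    obtain ⟨d, hd⟩ := S.T_conj i t⁻¹ (S.T.inv_mem ht)
    have hd2 := hd (up x3)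
    rw [tw_up, inv_inv] at hd2
    refine ⟨S.φ i (A * up x) * v * (S.φ i (A * up x))⁻¹ * S.φ i (up x2),
      S.Up.mul_mem (S.Vp_le i hv') (S.up_mem i x2),
      S.φ i (lo y2) * (S.φ i (dg s2 * up x3) * w * (S.φ i (dg s2 * up x3))⁻¹),
      S.Um.mul_mem (S.lo_mem i y2) (S.Vm_le i hw'), S.φ i (dg s2) * t,
      S.T.mul_mem (S.dg_mem i s2) ht,
      S.φ i (up ((d : K i) * (RingEquiv.refl _) x3)) * b,
      S.Up.mul_mem (S.up_mem i _) hb, ?_⟩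
    have e1 : S.φ i (A * up x) * S.φ i (lo y) =
      S.φ i (up x2) * S.φ i (lo y2) * S.φ i (dg s2) * S.φ i (up x3) := by
      rw [← map_mul, hA]; simp only [map_mul]
    have e0 : S.φ i A * (S.φ i (up x) * v * (S.φ i (lo y) * w * t * b)) =
      S.φ i (A * up x) * v * (S.φ i (A * up x))⁻¹ * (S.φ i (A * up x) * S.φ i (lo y)) *
        w * t * b := by
      rw [map_mul]; group
    rw [e0, e1, ← hd2]
    simp only [map_mul]
    group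
  set H : Subgroup G :=
    { carrier := {h | (∀ g ∈ X, h * g ∈ X) ∧ (∀ g ∈ X, h⁻¹ * g ∈ X)}
      mul_mem' := by
        rintro a b ⟨h1, h2⟩ ⟨h3, h4⟩
        refine ⟨fun g hg => ?_, fun g hg => ?_⟩
        · rw [mul_assoc]; exact h1 _ (h3 _ hg)
        · rw [mul_inv_rev, mul_assoc]; exact h4 _ (h2 _ hg)
      one_mem' := ⟨fun g hg => by simpa using hg, fun g hg => by simpa using hg⟩
      inv_mem' := by
        rintro a ⟨h1, h2⟩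
        exact ⟨h2, fun g hg => by rw [inv_inv]; exact h1 g hg⟩ } with hH
  have h1 : g ∈ H := by
    apply S.gen H
    intro i A
    refine ⟨step i A, fun g hg => ?_⟩
    rw [← map_inv]; exact step i _ g hg
  have hone : (1 : G) ∈ X := ⟨1, S.Up.one_mem, 1, S.Um.one_mem, 1, S.T.one_mem, 1, S.Up.one_mem,
    by simp⟩
  have := h1.1 1 hone
  rwa [mul_one] at this

variable (τ : MulAut G)

/-- the type of automorphism allowed as `x²` -/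
def Adm (τ : MulAut G) : Prop := ∀ i,
  (∃ (c : (K i)ˣ) (ρ : K i ≃+* K i), (∃ z, ρ z ≠ z) ∧
    ∀ A, τ (S.φ i A) = S.φ i (tw c ρ A)) ∨
  (∃ j, i ≠ j ∧ ∃ (c : (K j)ˣ) (ρ : K i ≃+* K j), ∀ A, τ (S.φ i A) = S.φ j (tw c ρ A))

/-- changing the torus part by one factor -/
theorem step (hτ : S.Adm τ) (t : G) (ht : t ∈ S.T) (i : I) (s : (K i)ˣ) (a : G) (ha : a ∈ S.Um)
    (b : G) (hb : b ∈ S.Up) :
    ∃ h, ∃ a' ∈ S.Um, ∃ b' ∈ S.Up, h * (a * t * b) * (τ h)⁻¹ = a' * (S.φ i (dg s) * t) * b' := by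
  rcases hτ i with ⟨c, ρ, hρ, hc⟩ | ⟨j, hij, c, ρ, hc⟩
  · obtain ⟨y, w, hw, rfl⟩ := S.Um_dec i a ha
    obtain ⟨x, v, hv, rfl⟩ := S.Up_dec i b hb
    obtain ⟨d, hd⟩ := S.T_conj i t ht
    -- φ(lo y) w = w1 φ(lo y)
    obtain ⟨h, hh⟩ := rank_one_a ρ hρ (d * c) y (d * x) (s : K i)
    obtain ⟨y', x', hB⟩ := eq_lo_dg_up _ s hh
    obtain ⟨e, he⟩ := S.T_conj i t⁻¹ (S.T.inv_mem ht)
    refine ⟨S.φ i h, S.φ i (h * lo y) * w * (S.φ i (h * lo y))⁻¹ * S.φ i (lo y'),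
      S.Um.mul_mem (S.Vm_le i (S.Vm_norm i _ w hw)) (S.lo_mem i y'),
      S.φ i (up (e * x')) * (S.φ i (tw c ρ h) * v * (S.φ i (tw c ρ h))⁻¹),
      S.Up.mul_mem (S.up_mem i _) (S.Vp_le i (S.Vp_norm i _ v hv)), ?_⟩
    have e1 : t * S.φ i (tw c ρ h) * t⁻¹ = S.φ i (tw (d * c) ρ h) := by rw [hd, tw_tw]
    have e2 : t * S.φ i (up x) * t⁻¹ = S.φ i (up (d * x)) := by rw [hd, tw_up]; simp
    have e3 : t⁻¹ * S.φ i (up x') * t = S.φ i (up (e * x')) := by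
      have := he (up x'); rw [inv_inv, tw_up] at this; simpa using this
    have e4 : S.φ i (h * lo y) * S.φ i (up (d * x)) * (S.φ i (tw (d * c) ρ h))⁻¹ =
      S.φ i (lo y') * S.φ i (dg s) * S.φ i (up x') := by
      rw [← map_mul, ← map_inv, ← map_mul, mul_assoc h, hB]; simp only [map_mul]
    rw [hc]
    calc S.φ i h * (S.φ i (lo y) * w * t * (S.φ i (up x) * v)) * (S.φ i (tw c ρ h))⁻¹
        = (S.φ i (h * lo y) * w * (S.φ i (h * lo y))⁻¹) * (S.φ i (h * lo y) *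
          (t * S.φ i (up x) * t⁻¹) * (t * S.φ i (tw c ρ h) * t⁻¹)⁻¹) * t *
          (S.φ i (tw c ρ h) * v * (S.φ i (tw c ρ h))⁻¹) := by
          rw [map_mul]; group
      _ = (S.φ i (h * lo y) * w * (S.φ i (h * lo y))⁻¹) * (S.φ i (lo y') * S.φ i (dg s) *
          S.φ i (up x')) * t * (S.φ i (tw c ρ h) * v * (S.φ i (tw c ρ h))⁻¹) := by
          rw [e2, e1, e4]
      _ = _ := by rw [← e3]; group
  · obtain ⟨y, w, hw, rfl⟩ := S.Um_dec i a ha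
    obtain ⟨x, v, hv, rfl⟩ := S.Up_dec j b hb
    obtain ⟨h, hh1, hh2⟩ := rank_one_b ρ c y x (s : K i)
    obtain ⟨y1, x1, hB1⟩ := eq_lo_dg_up _ s hh1
    obtain ⟨y2, x2, hB2⟩ := eq_lo_dg_up (up x * (tw c ρ h)⁻¹) 1 (by rw [hh2]; simp)
    obtain ⟨e, he⟩ := S.T_conj i t⁻¹ (S.T.inv_mem ht)
    have hst : S.φ i (dg s) * t ∈ S.T := S.T.mul_mem (S.dg_mem i s) ht
    refine ⟨S.φ i h, S.φ i (h * lo y) * w * (S.φ i (h * lo y))⁻¹ * S.φ i (lo y1) *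
      ((S.φ i (dg s) * t) * S.φ j (lo y2) * (S.φ i (dg s) * t)⁻¹),
      S.Um.mul_mem (S.Um.mul_mem (S.Vm_le i (S.Vm_norm i _ w hw)) (S.lo_mem i y1))
        (S.T_m _ hst _ (S.lo_mem j y2)),
      S.φ i (up (e * x1)) * S.φ j (up x2) * (S.φ j (tw c ρ h) * v * (S.φ j (tw c ρ h))⁻¹),
      S.Up.mul_mem (S.Up.mul_mem (S.up_mem i _) (S.up_mem j _))
        (S.Vp_le j (S.Vp_norm j _ v hv)), ?_⟩
    have e3 : t⁻¹ * S.φ i (up x1) * t = S.φ i (up (e * x1)) := by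
      have := he (up x1); rw [inv_inv, tw_up] at this; simpa using this
    have e4 : S.φ i (h * lo y) = S.φ i (lo y1) * S.φ i (dg s) * S.φ i (up x1) := by
      rw [hB1]; simp only [map_mul]
    have e5 : S.φ j (up x) * (S.φ j (tw c ρ h))⁻¹ = S.φ j (lo y2) * S.φ j (up x2) := by
      rw [← map_inv, ← map_mul, hB2, dg_one, mul_one]; simp only [map_mul]
    have e6 : S.φ i (up (e * x1)) * S.φ j (lo y2) = S.φ j (lo y2) * S.φ i (up (e * x1)) :=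
      S.comm i j hij _ _
    rw [hc]
    calc S.φ i h * (S.φ i (lo y) * w * t * (S.φ j (up x) * v)) * (S.φ j (tw c ρ h))⁻¹
        = (S.φ i (h * lo y) * w * (S.φ i (h * lo y))⁻¹) * S.φ i (h * lo y) * t *
          (S.φ j (up x) * (S.φ j (tw c ρ h))⁻¹) *
          (S.φ j (tw c ρ h) * v * (S.φ j (tw c ρ h))⁻¹) := by
          rw [map_mul]; group
      _ = (S.φ i (h * lo y) * w * (S.φ i (h * lo y))⁻¹) * (S.φ i (lo y1) * S.φ i (dg s)) * t *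
          ((t⁻¹ * S.φ i (up x1) * t) * S.φ j (lo y2)) * S.φ j (up x2) *
          (S.φ j (tw c ρ h) * v * (S.φ j (tw c ρ h))⁻¹) := by
          rw [e5]
          have : S.φ i (h * lo y) * w * (S.φ i (h * lo y))⁻¹ * S.φ i (h * lo y) =
            S.φ i (h * lo y) * w * (S.φ i (h * lo y))⁻¹ * (S.φ i (lo y1) * S.φ i (dg s) *
              S.φ i (up x1)) := by rw [e4]
          rw [this]; group
      _ = _ := by rw [e3, e6]; group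

/-- **Twisted Gauss decomposition with prescribed torus part** -/
theorem cell (hτ : S.Adm τ) (τp : ∀ u ∈ S.Up, τ u ∈ S.Up) (g : G) :
    ∃ h, ∃ a ∈ S.Um, ∃ b ∈ S.Up, h * g * (τ h)⁻¹ = a * b := by
  obtain ⟨u, hu, a, ha, t, ht, b, hb, rfl⟩ := S.big g
  -- move all torus parts
  have key : ∀ r ∈ S.T, ∀ t ∈ S.T, ∀ a ∈ S.Um, ∀ b ∈ S.Up,
      ∃ h, ∃ a' ∈ S.Um, ∃ b' ∈ S.Up, h * (a * t * b) * (τ h)⁻¹ = a' * (r * t) * b' := by
    refine S.T_induction (p := fun r => ∀ t ∈ S.T, ∀ a ∈ S.Um, ∀ b ∈ S.Up,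
      ∃ h, ∃ a' ∈ S.Um, ∃ b' ∈ S.Up, h * (a * t * b) * (τ h)⁻¹ = a' * (r * t) * b') ?_ ?_
    · intro t ht a ha b hb
      exact ⟨1, a, ha, b, hb, by simp⟩
    · intro i s r hr ih t ht a ha b hb
      obtain ⟨h1, a1, ha1, b1, hb1, e1⟩ := ih t ht a ha b hb
      obtain ⟨h2, a2, ha2, b2, hb2, e2⟩ := S.step τ hτ (r * t) (S.T.mul_mem hr ht) i s a1 ha1 b1 hb1
      refine ⟨h2 * h1, a2, ha2, b2, hb2, ?_⟩
      rw [map_mul, mul_inv_rev, mul_assoc (S.φ i (dg s)), ← e2, ← e1]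
      group
  obtain ⟨h, a', ha', b', hb', e⟩ := key t⁻¹ (S.T.inv_mem ht) t ht a ha (b * τ u)
    (S.Up.mul_mem hb (τp u hu))
  refine ⟨h * u⁻¹, a', ha', b', hb', ?_⟩
  rw [inv_mul_cancel, mul_one] at e
  rw [← e, map_mul, map_inv]
  group

/-- **The criterion.** -/
theorem criterion (x : MulAut G) (hτ : S.Adm (x ^ 2)) (xp : ∀ u ∈ S.Up, x u ∈ S.Up)
    (xp' : ∀ u ∈ S.Up, x⁻¹ u ∈ S.Up)
    (lp : ∀ u ∈ S.Up, ∃ w, u = w * (x w)⁻¹) (lm : ∀ u ∈ S.Um, ∃ w, u = w * (x w)⁻¹) :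
    ∀ y ∈ coset (x ^ 2), ∃ u v : G, y = (MulAut.conj u * x * (MulAut.conj u)⁻¹) *
      (MulAut.conj v * x * (MulAut.conj v)⁻¹) := by
  rintro y ⟨g, rfl⟩
  obtain ⟨h, a, ha, b, hb, e⟩ := S.cell (x ^ 2) hτ
    (fun u hu => by rw [pow_two, MulAut.mul_apply]; exact xp _ (xp u hu)) ((x ^ 2) g)
  obtain ⟨w1, hw1⟩ := lm a ha
  obtain ⟨w2, hw2⟩ := lp (x⁻¹ b) (xp' b hb)
  refine ⟨h⁻¹ * w1, h⁻¹ * w2, ?_⟩
  have hg : (x ^ 2) g = h⁻¹ * (a * b) * (x ^ 2) h := by rw [← e]; group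
  have hb2 : b = x w2 * (x (x w2))⁻¹ := by
    have := congrArg x hw2
    rw [MulAut.apply_inv_self, map_mul, map_inv] at this
    exact this
  have e1 : x ^ 2 * MulAut.conj g = MulAut.conj ((x ^ 2) g) * x ^ 2 := by
    ext z; simp [MulAut.mul_apply]
  have e2 : ∀ c : G, MulAut.conj c * x * (MulAut.conj c)⁻¹ = MulAut.conj (c * (x c)⁻¹) * x := by
    intro c; ext z
    simp only [MulAut.mul_apply, ← map_inv, MulAut.conj_apply, map_mul, inv_inv, mul_assoc,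
      mul_inv_rev]
  have e3 : ∀ c d : G, MulAut.conj c * x * (MulAut.conj d * x) = MulAut.conj (c * x d) * x ^ 2 := by
    intro c d; ext z
    simp only [MulAut.mul_apply, MulAut.conj_apply, map_mul, map_inv, pow_two, mul_assoc,
      mul_inv_rev]
  rw [e1, e2, e2, e3]
  congr 2
  rw [hg]
  have e4 : (x ^ 2) h = x (x h) := by rw [pow_two, MulAut.mul_apply]
  rw [e4, hw1, hb2]
  simp only [map_mul, map_inv, mul_inv_rev, inv_inv]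
  group

end Sys

end ChevT
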