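import Pool.Agent.Helper49.Chev.Roots
import Pool.Agent.Helper49.Chev.Crit

/-!
Groups with root subgroups of type `P` over a field `K`.
-/

namespace ChevT

open RootPairing

/-- A group `G` with a system of root subgroups of type `P` (a crystallographic root system with a
base `b`), whose root subgroups are parametrised by fields `K r` containing a common field `F`: for
each root `r` there is a homomorphism `φ r : SL_2(K r) → G`, giving the root elements
`x_r(t) = φ r (1 t; 0 1)`, `t ∈ K r`, and the standard relations of (possibly twisted) Chevalley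
groups hold.  For the untwisted Chevalley groups over `F` all `K r` are `F`. -/
structure RootData {ι R M N : Type*} [CommRing R] [AddCommGroup M] [Module R M]
    [AddCommGroup N] [Module R N] (P : RootPairing ι R M N) [P.IsCrystallographic] (b : P.Base)
    (F : Type*) [Field F] (K : ι → Type*) [∀ r, Field (K r)] [∀ r, Algebra F (K r)]
    (G : Type*) [Group G] where
  /-- the homomorphisms `SL_2(K r) → G` -/
  φ : ∀ r, SL2 (K r) →* G
  /-- `φ r (1 0; t 1)` is in the root subgroup of `-r` -/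
  neg : ∀ r s, P.root s = -P.root r → ∃ e : K r ≃+* K s, ∀ t, φ r (lo t) = φ s (up (e t))
  /-- the commutator of `x_r(t)` and `x_s(u)`, `s ≠ ± r`, is a product of root elements
  `x_k(v)` with `k = p r + q s`, `p, q ≥ 1` -/
  comm : ∀ r s, P.root s ≠ P.root r → P.root s ≠ -P.root r → ∀ t u,
    φ r (up t) * φ s (up u) * (φ r (up t))⁻¹ * (φ s (up u))⁻¹ ∈
      Subgroup.closure {g | ∃ k, ∃ v : K k,
      (∃ p q : ℕ, 0 < p ∧ 0 < q ∧ P.root k = p • P.root r + q • P.root s) ∧ g = φ k (up v)}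
  /-- `h_r(a) = φ r (a 0; 0 a⁻¹)` acts on `φ s (SL_2(K s))` as a diagonal matrix `diag(d, 1)` -/
  torus : ∀ r s (a : (K r)ˣ), ∃ d : (K s)ˣ, ∀ A,
    φ r (dg a) * φ s A * (φ r (dg a))⁻¹ = φ s (tw d (RingEquiv.refl _) A)
  /-- for `a ∈ F` this diagonal matrix is `diag(a^⟨s, r^∨⟩, 1)` -/
  torus_base : ∀ r s (a : Fˣ) A, φ r (dg (Units.map (algebraMap F (K r) : F →* K r) a)) * φ s A *
    (φ r (dg (Units.map (algebraMap F (K r) : F →* K r) a)))⁻¹ =
    φ s (tw (Units.map (algebraMap F (K s) : F →* K s) (a ^ P.pairingIn ℤ s r))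
      (RingEquiv.refl _) A)
  /-- `G` is generated by the images of the `φ r`, `r` a simple root -/
  gen : ∀ H : Subgroup G, (∀ i ∈ b.support, ∀ A, φ i A ∈ H) → H = ⊤

namespace RootData

variable {ι R M N : Type*} [CommRing R] [CharZero R] [AddCommGroup M] [Module R M]
  [AddCommGroup N] [Module R N] {P : RootPairing ι R M N} [P.IsCrystallographic] {b : P.Base}
  {F : Type*} [Field F] {K : ι → Type*} [∀ r, Field (K r)] [∀ r, Algebra F (K r)]
  {G : Type*} [Group G] (D : RootData P b F K G)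

/-- root elements -/
def x (r : ι) (t : K r) : G := D.φ r (up t)

omit [CharZero R] in
theorem x_add (r : ι) (s t : K r) : D.x r (s + t) = D.x r s * D.x r t := by
  unfold x; rw [up_add, map_mul]

omit [CharZero R] in
theorem x_zero (r : ι) : D.x r 0 = 1 := by unfold x; rw [up_zero, map_one]

omit [CharZero R] in
theorem x_neg (r : ι) (t : K r) : D.x r (-t) = (D.x r t)⁻¹ := by
  unfold x; rw [up_neg, map_inv]

/-- subgroup generated by root elements of weight at least `m` -/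
def U (w : ι → ℤ) (m : ℤ) : Subgroup G :=
  Subgroup.closure {g | ∃ r, ∃ t : K r, m ≤ wt b w r ∧ g = D.x r t}

theorem x_mem_U {w : ι → ℤ} {m : ℤ} {r : ι} (h : m ≤ wt b w r) (t : K r) : D.x r t ∈ D.U w m :=
  Subgroup.subset_closure ⟨r, t, h, rfl⟩

theorem U_mono {w : ι → ℤ} {m n : ℤ} (h : m ≤ n) : D.U w n ≤ D.U w m := by
  apply Subgroup.closure_mono
  rintro g ⟨r, t, hr, rfl⟩
  exact ⟨r, t, h.trans hr, rfl⟩

theorem U_le {w : ι → ℤ} {m : ℤ} {H : Subgroup G} (h : ∀ r t, m ≤ wt b w r → D.x r t ∈ H) :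
    D.U w m ≤ H := by
  rw [U, Subgroup.closure_le]
  rintro g ⟨r, t, hr, rfl⟩
  exact h r t hr

theorem comm_mem {w : ι → ℤ} {m : ℤ} {r s : ι} (h1 : P.root s ≠ P.root r)
    (h2 : P.root s ≠ -P.root r)
    (hw : ∀ p q : ℕ, 0 < p → 0 < q → m ≤ p * wt b w r + q * wt b w s) (t : K r) (u : K s) :
    D.x r t * D.x s u * (D.x r t)⁻¹ * (D.x s u)⁻¹ ∈ D.U w m := by
  have h := D.comm r s h1 h2 t u
  refine (Subgroup.closure_le (K := D.U w m)).2 ?_ h
  rintro g ⟨k, v, ⟨p, q, hp, hq, hk⟩, rfl⟩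
  apply D.x_mem_U
  have : P.root k = (p : ℤ) • P.root r + (q : ℤ) • P.root s := by
    rw [natCast_zsmul, natCast_zsmul]; exact hk
  rw [wt_add b w this]
  exact hw p q hp hq

/-- conjugation by a root element of nonnegative weight -/
theorem norm_x {w : ι → ℤ} {m : ℤ} (hm : 1 ≤ m) {s : ι} (hs : 0 ≤ wt b w s) (t : K s) :
    ∀ u ∈ D.U w m, D.x s t * u * (D.x s t)⁻¹ ∈ D.U w m := by
  intro u hu
  refine Subgroup.closure_induction (p := fun u _ => D.x s t * u * (D.x s t)⁻¹ ∈ D.U w m)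
    ?_ ?_ ?_ ?_ hu
  · rintro _ ⟨r, v, hr, rfl⟩
    by_cases h1 : P.root r = P.root s
    · have : r = s := P.root.injective h1
      subst this
      rw [← D.x_add, add_comm, D.x_add, mul_inv_cancel_right]
      exact D.x_mem_U hr v
    · by_cases h2 : P.root r = -P.root s
      · exfalso
        have := wt_neg b w h2
        omega
      · have h3 := D.comm_mem (w := w) (m := m) (r := s) (s := r) h1 h2 (by
          intro p q hp hq
          have e1 : 0 ≤ (p : ℤ) * wt b w s := by positivity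
          have e2 : wt b w r ≤ (q : ℤ) * wt b w r := by
            have : (1 : ℤ) ≤ q := by exact_mod_cast hq
            nlinarith
          omega) t v
        have h4 := (D.U w m).mul_mem h3 (D.x_mem_U hr v)
        simpa [mul_assoc] using h4
  · simpa using (D.U w m).one_mem
  · intro a c _ _ ha hc
    have := (D.U w m).mul_mem ha hc
    simpa [mul_assoc] using this
  · intro a _ ha
    have := (D.U w m).inv_mem ha
    simpa [mul_assoc] using this

theorem U_norm {w : ι → ℤ} {m n : ℤ} (hm : 1 ≤ m) (hn : 0 ≤ n) :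
    ∀ a ∈ D.U w n, ∀ u ∈ D.U w m, a * u * a⁻¹ ∈ D.U w m := by
  intro a ha
  refine Subgroup.closure_induction_left (p := fun a _ => ∀ u ∈ D.U w m, a * u * a⁻¹ ∈ D.U w m)
    ?_ ?_ ?_ ha
  · intro u hu; simpa using hu
  · rintro _ ⟨r, t, hr, rfl⟩ y _ hy u hu
    have := D.norm_x hm (hn.trans hr) t _ (hy u hu)
    simpa [mul_assoc] using this
  · rintro _ ⟨r, t, hr, rfl⟩ y _ hy u hu
    have := D.norm_x hm (hn.trans hr) (-t) _ (hy u hu)
    rw [D.x_neg] at this
    simpa [mul_assoc] using this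

theorem U_norm' {w : ι → ℤ} {m n : ℤ} (hm : 1 ≤ m) (hn : 0 ≤ n) {a : G} (ha : a ∈ D.U w n) {u : G}
    (hu : u ∈ D.U w m) : a⁻¹ * u * a ∈ D.U w m := by
  have := D.U_norm hm hn a⁻¹ ((D.U w n).inv_mem ha) u hu
  rwa [inv_inv] at this

/-- commutators have larger weight -/
theorem U_comm {w : ι → ℤ} {m : ℤ} (hm : 1 ≤ m) :
    ∀ a ∈ D.U w m, ∀ c ∈ D.U w m, a * c * a⁻¹ * c⁻¹ ∈ D.U w (m + 1) := by
  have hm0 : 0 ≤ m := by omega
  have hm1 : 1 ≤ m + 1 := by omega
  have step1 : ∀ r t, m ≤ wt b w r → ∀ c ∈ D.U w m, D.x r t * c * (D.x r t)⁻¹ * c⁻¹ ∈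
      D.U w (m + 1) := by
    intro r t hr c hc
    refine Subgroup.closure_induction (p := fun c _ => D.x r t * c * (D.x r t)⁻¹ * c⁻¹ ∈
      D.U w (m + 1)) ?_ ?_ ?_ ?_ hc
    · rintro _ ⟨s, v, hs, rfl⟩
      by_cases h1 : P.root s = P.root r
      · have : s = r := P.root.injective h1
        subst this
        rw [← D.x_add, add_comm t v, D.x_add, mul_inv_cancel_right, mul_inv_cancel]
        exact (D.U w _).one_mem
      · by_cases h2 : P.root s = -P.root r
        · exfalso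
          have := wt_neg b w h2
          omega
        · have h3 := D.comm_mem (w := w) (m := m + 1) (r := r) (s := s) h1 h2 (by
            intro p q hp hq
            have e1 : wt b w r ≤ (p : ℤ) * wt b w r := by
              have : (1 : ℤ) ≤ p := by exact_mod_cast hp
              nlinarith
            have e2 : wt b w s ≤ (q : ℤ) * wt b w s := by
              have : (1 : ℤ) ≤ q := by exact_mod_cast hq
              nlinarith
            omega) t v
          exact h3
    · simpa using (D.U w (m + 1)).one_mem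
    · intro a c ha' _ ha hc
      have h1 := D.U_norm hm1 hm0 a ha' _ hc
      have := (D.U w (m + 1)).mul_mem ha h1
      have e : D.x r t * (a * c) * (D.x r t)⁻¹ * (a * c)⁻¹ = D.x r t * a * (D.x r t)⁻¹ * a⁻¹ *
        (a * (D.x r t * c * (D.x r t)⁻¹ * c⁻¹) * a⁻¹) := by group
      rw [e]; exact this
    · intro a ha' ha
      have h1 := D.U_norm' hm1 hm0 ha' ((D.U w (m + 1)).inv_mem ha)
      have e : D.x r t * a⁻¹ * (D.x r t)⁻¹ * a⁻¹⁻¹ =
        a⁻¹ * (D.x r t * a * (D.x r t)⁻¹ * a⁻¹)⁻¹ * a := by group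
      rw [e]; exact h1
  intro a ha
  refine Subgroup.closure_induction (p := fun a _ => ∀ c ∈ D.U w m, a * c * a⁻¹ * c⁻¹ ∈
      D.U w (m + 1)) ?_ ?_ ?_ ?_ ha
  · rintro _ ⟨r, t, hr, rfl⟩ c hc; exact step1 r t hr c hc
  · intro c _; simpa using (D.U w (m + 1)).one_mem
  · intro a1 a2 ha1 _ h1 h2 c hc
    have h3 := D.U_norm hm1 hm0 a1 ha1 _ (h2 c hc)
    have := (D.U w (m + 1)).mul_mem h3 (h1 c hc)
    have e : a1 * a2 * c * (a1 * a2)⁻¹ * c⁻¹ = a1 * (a2 * c * a2⁻¹ * c⁻¹) * a1⁻¹ *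
      (a1 * c * a1⁻¹ * c⁻¹) := by group
    rw [e]; exact this
  · intro a1 ha1 h1 c hc
    have h3 := D.U_norm' hm1 hm0 ha1 ((D.U w (m + 1)).inv_mem (h1 c hc))
    have e : a1⁻¹ * c * a1⁻¹⁻¹ * c⁻¹ = a1⁻¹ * (a1 * c * a1⁻¹ * c⁻¹)⁻¹ * a1 := by group
    rw [e]; exact h3

theorem U_bot [Finite ι] (w : ι → ℤ) : ∃ m0 : ℤ, ∀ m, m0 ≤ m → D.U w m = ⊥ := by
  obtain ⟨B, hB⟩ := (Set.finite_range (wt b w)).bddAbove
  refine ⟨B + 1, fun m hm => ?_⟩
  rw [eq_bot_iff]
  apply D.U_le
  intro r t hr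
  have := hB ⟨r, rfl⟩
  omega

end RootData

end ChevT
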