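import Pool.Agent.Helper49.Chev.Roots

/-!
Diagram automorphisms: heights, sums of Cartan integers over orbits.
-/

namespace ChevT

open RootPairing
open scoped Matrix

variable {ι R M N : Type*} [CommRing R] [CharZero R] [AddCommGroup M] [Module R M]
  [AddCommGroup N] [Module R N] {P : RootPairing ι R M N} (b : P.Base)

section perm

variable {π : Equiv.Perm ι}

omit [CharZero R] in
theorem mem_support_iff (hs : ∀ i ∈ b.support, π i ∈ b.support) (i : ι) :
    i ∈ b.support ↔ π i ∈ b.support := by
  classical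
  refine ⟨hs i, fun h => ?_⟩
  have h1 : b.support.image π = b.support := by
    apply Finset.eq_of_subset_of_card_le
    · intro j hj
      obtain ⟨k, hk, rfl⟩ := Finset.mem_image.1 hj
      exact hs k hk
    · rw [Finset.card_image_of_injective _ π.injective]
  rw [← h1] at h
  obtain ⟨k, hk, hk2⟩ := Finset.mem_image.1 h
  rwa [← π.injective hk2]

theorem coef_perm {θ : M →+ M} (hπ : ∀ r, P.root (π r) = θ (P.root r))
    (hs : ∀ i ∈ b.support, π i ∈ b.support) (r : ι) {i : ι} (hi : i ∈ b.support) :
    coef b (π r) i = coef b r (π.symm i) := by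
  apply coef_eq b (f := fun i => coef b r (π.symm i)) _ hi
  rw [hπ, root_eq b r, map_sum]
  apply Finset.sum_equiv π
  · exact mem_support_iff b hs
  · intro j _
    rw [map_zsmul, hπ, Equiv.symm_apply_apply]

theorem ht_perm {θ : M →+ M} (hπ : ∀ r, P.root (π r) = θ (P.root r))
    (hs : ∀ i ∈ b.support, π i ∈ b.support) (r : ι) : ht b (π r) = ht b r := by
  unfold ht wt
  symm
  apply Finset.sum_equiv π
  · exact mem_support_iff b hs
  · intro j hj
    rw [coef_perm b hπ hs r (hs j hj), Equiv.symm_apply_apply]; simp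

theorem ht_iter {θ : M →+ M} (hπ : ∀ r, P.root (π r) = θ (P.root r))
    (hs : ∀ i ∈ b.support, π i ∈ b.support) (k : ℕ) (r : ι) : ht b (π^[k] r) = ht b r := by
  induction k with
  | zero => rfl
  | succ k ih => rw [Function.iterate_succ_apply', ht_perm b hπ hs, ih]

end perm

variable [P.IsCrystallographic]

theorem pairingIn_eq_sum (r k : ι) :
    P.pairingIn ℤ r k = ∑ l ∈ b.support, coef b r l * P.pairingIn ℤ l k := by
  apply FaithfulSMul.algebraMap_injective ℤ R
  simp_rw [algebraMap_pairingIn, map_sum, map_mul, algebraMap_pairingIn,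
      ← P.root_coroot'_eq_pairing]
  conv_lhs => rw [root_eq b r]
  simp

/-- the sums of the Cartan integers over a `π`-orbit -/
theorem exists_sum_ne [Finite ι] [IsDomain R] [P.IsRootSystem] {π : Equiv.Perm ι} {θ : M →+ M}
    (hπ : ∀ r, P.root (π r) = θ (P.root r))
    (hs : ∀ i ∈ b.support, π i ∈ b.support) {L : ℕ} (hL : 0 < L) (r : ι) :
    ∃ j : b.support, ∑ k ∈ Finset.range L, P.pairingIn ℤ (π^[k] r) j ≠ 0 := by
  classical
  by_contra hcon
  push Not at hcon
  set m : b.support → ℤ := fun i => ∑ k ∈ Finset.range L, coef b (π^[k] r) i with hm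
  have h1 : m ᵥ* b.cartanMatrix = 0 := by
    funext j
    rw [Matrix.vecMul_eq_sum, Finset.sum_apply, Pi.zero_apply, ← hcon j]
    simp only [hm, Pi.smul_apply, smul_eq_mul, Base.cartanMatrix, Base.cartanMatrixIn_def,
      Finset.sum_mul]
    rw [Finset.sum_comm]
    refine Finset.sum_congr rfl fun k _ => ?_
    rw [pairingIn_eq_sum b, b.support.sum_subtype (p := (· ∈ b.support)) (by simp)
      (F := inferInstance)]
  have h2 : Function.Injective fun v : b.support → ℤ => v ᵥ* b.cartanMatrix := by
    rw [Matrix.vecMul_injective_iff]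
    exact Matrix.linearIndependent_rows_of_det_ne_zero
      (Matrix.nondegenerate_iff_det_ne_zero.1 b.cartanMatrix_nondegenerate)
  have h3 : m = 0 := h2 (by simp [h1])
  have h4 : ∑ i : b.support, m i = L * ht b r := by
    simp only [hm]
    rw [Finset.sum_comm]
    have : ∀ k ∈ Finset.range L, ∑ i : b.support, coef b (π^[k] r) i = ht b r := by
      intro k _
      rw [← ht_iter b hπ hs k r]
      unfold ht wt
      rw [b.support.sum_subtype (p := (· ∈ b.support)) (by simp) (F := inferInstance)]
      simp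
    rw [Finset.sum_congr rfl this]
    simp
  rw [h3] at h4
  simp only [Pi.zero_apply, Finset.sum_const_zero] at h4
  have h5 := ht_ne b r
  have h6 : (L : ℤ) ≠ 0 := by exact_mod_cast hL.ne'
  exact mul_ne_zero h6 h5 h4.symm

/-- bound for the weighted sum of the Cartan integers -/
theorem sum_abs_le [Fintype ι] [DecidableEq ι] [Fintype {r // 1 ≤ ht b r}]
    {π : Equiv.Perm ι} {θ : M →+ M}
    (hπ : ∀ r, P.root (π r) = θ (P.root r))
    (hs : ∀ i ∈ b.support, π i ∈ b.support) (d : ι → ℕ) (hd1 : ∀ r, d (π r) = d r)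
    (hd2 : ∀ r s, P.root s = -P.root r → d s = d r) (L : ℕ) (j : ι) :
    2 * ∑ r : {r // 1 ≤ ht b r}, |d r * ∑ k ∈ Finset.range L, P.pairingIn ℤ (π^[k] (r : ι)) j| ≤
      L * ∑ r, d r * |P.pairingIn ℤ r j| := by
  classical
  set f : ι → ℤ := fun r => d r * |P.pairingIn ℤ r j| with hf
  have hneg : ∀ r s, P.root s = -P.root r → f s = f r := by
    intro r s h
    have : P.pairingIn ℤ s j = -P.pairingIn ℤ r j := by
      apply FaithfulSMul.algebraMap_injective ℤ R
      rw [map_neg, P.algebraMap_pairingIn, P.algebraMap_pairingIn]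
      rw [← P.root_coroot_eq_pairing, ← P.root_coroot_eq_pairing, h, map_neg, LinearMap.neg_apply]
    simp only [hf, this, abs_neg, hd2 _ _ h]
  have hdk : ∀ k : ℕ, ∀ r, d (π^[k] r) = d r := by
    intro k r
    induction k with
    | zero => rfl
    | succ k ih => rw [Function.iterate_succ_apply', hd1, ih]
  have hiter : ∀ k : ℕ, ∑ r : {r // 1 ≤ ht b r}, f (π^[k] (r : ι)) =
      ∑ r : {r // 1 ≤ ht b r}, f r := by
    intro k
    have hk : ∀ r, 1 ≤ ht b r → 1 ≤ ht b (π^[k] r) := fun r hr => by rwa [ht_iter b hπ hs]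
    apply Function.Bijective.sum_comp (e := fun r : {r // 1 ≤ ht b r} =>
      (⟨π^[k] (r : ι), hk r r.2⟩ : {r // 1 ≤ ht b r})) _ (fun r => f (r : ι))
    apply Function.Injective.bijective_of_finite
    intro r s h
    simp only [Subtype.mk.injEq] at h
    exact Subtype.ext (π.injective.iterate k h)
  have h1 : ∑ r : {r // 1 ≤ ht b r}, |d r * ∑ k ∈ Finset.range L,
      P.pairingIn ℤ (π^[k] (r : ι)) j| ≤ L * ∑ r : {r // 1 ≤ ht b r}, f r := by
    calc _ ≤ ∑ r : {r // 1 ≤ ht b r}, ∑ k ∈ Finset.range L, f (π^[k] (r : ι)) := by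
          apply Finset.sum_le_sum
          intro r _
          rw [abs_mul, Nat.abs_cast]
          simp only [hf, hdk]
          rw [← Finset.mul_sum]
          exact mul_le_mul_of_nonneg_left (Finset.abs_sum_le_sum_abs _ _) (by positivity)
      _ = ∑ k ∈ Finset.range L, ∑ r : {r // 1 ≤ ht b r}, f (π^[k] (r : ι)) := Finset.sum_comm
      _ = L * ∑ r : {r // 1 ≤ ht b r}, f r := by
          rw [Finset.sum_congr rfl (fun k _ => hiter k)]; simp
  have h2 : ∑ r, f r = 2 * ∑ r : {r // 1 ≤ ht b r}, f r := by
    have e1 : ∑ r : {r // 1 ≤ ht b r}, f r = ∑ r with 1 ≤ ht b r, f r := by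
      rw [Finset.sum_subtype (p := fun r => 1 ≤ ht b r) (F := inferInstance)]
      simp
    have hrr : ∀ s, P.root (P.reflectionPerm s s) = -P.root s := by intro s; simp
    have e2 : ∑ r with ¬ 1 ≤ ht b r, f r = ∑ r with 1 ≤ ht b r, f r := by
      apply Finset.sum_nbij' (i := fun r => P.reflectionPerm r r)
        (j := fun r => P.reflectionPerm r r)
      · intro r hr
        simp only [Finset.mem_filter, Finset.mem_univ, true_and] at hr ⊢
        have h3 := wt_neg b 1 (r := r) (s := P.reflectionPerm r r) (by simp)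
        have h4 := ht_ne b r
        unfold ht at hr h4 ⊢; omega
      · intro r hr
        simp only [Finset.mem_filter, Finset.mem_univ, true_and] at hr ⊢
        have h3 := wt_neg b 1 (r := r) (s := P.reflectionPerm r r) (by simp)
        unfold ht at hr ⊢; omega
      · intro r _
        apply P.root.injective; rw [hrr, hrr, neg_neg]
      · intro r _
        apply P.root.injective; rw [hrr, hrr, neg_neg]
      · intro r _
        exact (hneg r _ (by simp)).symm
    rw [← Finset.sum_filter_add_sum_filter_not Finset.univ (fun r => 1 ≤ ht b r), e2, e1]; ring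
  rw [h2]
  linarith

end ChevT
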