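import Pool.Agent.Helper49.Chev.Std

/-!
A check that the hypotheses of the main theorem can be satisfied: the root system of type `A_1` and
the group `SL_2(F)` with a field automorphism.
-/

namespace ChevT

namespace Ex

open RootPairing CosetT
open scoped Pointwise

/-- the pairing `ℚ × ℚ → ℚ` -/
noncomputable def pair : ℚ →ₗ[ℚ] ℚ →ₗ[ℚ] ℚ := LinearMap.mul ℚ ℚ

theorem pair_apply (x y : ℚ) : pair x y = x * y := rfl

instance : pair.IsPerfPair := by
  constructor
  · constructor
    · intro x y h
      have := LinearMap.congr_fun h 1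
      simpa [pair_apply] using this
    · intro f
      refine ⟨f 1, ?_⟩
      ext
      simp [pair_apply]
  · constructor
    · intro x y h
      have := LinearMap.congr_fun h 1
      simpa [pair_apply] using this
    · intro f
      refine ⟨f 1, ?_⟩
      ext
      simp [pair_apply]

/-- the sign of a root -/
def sg (r : Bool) : ℚ := if r then 1 else -1

/-- the root system of type `A_1` -/
noncomputable def P1 : RootPairing Bool ℚ ℚ ℚ where
  toLinearMap := pair
  root := ⟨sg, by intro x y h; cases x <;> cases y <;> simp_all [sg] <;> norm_num at h⟩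
  coroot := ⟨fun r => 2 * sg r, by
    intro x y h; cases x <;> cases y <;> simp_all [sg] <;> norm_num at h⟩
  root_coroot_two r := by
    show sg r * (2 * sg r) = 2
    cases r <;> norm_num [sg]
  reflectionPerm _ := Equiv.boolNot
  reflectionPerm_root i j := by
    show sg j - (sg j * (2 * sg i)) * sg i = sg (!j)
    cases i <;> cases j <;> norm_num [sg]
  reflectionPerm_coroot i j := by
    show 2 * sg j - (sg i * (2 * sg j)) * (2 * sg i) = 2 * sg (!j)
    cases i <;> cases j <;> norm_num [sg]

theorem root_eq' (r : Bool) : P1.root r = sg r := rfl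
theorem coroot_eq' (r : Bool) : P1.coroot r = 2 * sg r := rfl

theorem pairing_eq (r s : Bool) : P1.pairing r s = sg r * (2 * sg s) := rfl

instance : P1.IsCrystallographic := by
  constructor
  intro r s
  refine ⟨if r = s then 2 else -2, ?_⟩
  cases r <;> cases s <;> simp [pairing_eq, sg]

theorem pairingIn_eq (r s : Bool) : P1.pairingIn ℤ r s = if r = s then 2 else -2 := by
  apply FaithfulSMul.algebraMap_injective ℤ ℚ
  rw [P1.algebraMap_pairingIn]
  cases r <;> cases s <;> simp [pairing_eq, sg]

instance : P1.IsReduced := by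
  constructor
  intro r s _
  cases r <;> cases s <;> simp [root_eq', sg]

instance : P1.IsRootSystem := by
  constructor
  · rw [eq_top_iff]
    intro x _
    have : x = x • P1.root true := by simp [root_eq', sg]
    rw [this]
    exact Submodule.smul_mem _ _ (Submodule.subset_span ⟨true, rfl⟩)
  · rw [eq_top_iff]
    intro x _
    have : x = (x / 2) • P1.coroot true := by simp [coroot_eq', sg]
    rw [this]
    exact Submodule.smul_mem _ _ (Submodule.subset_span ⟨true, rfl⟩)

/-- the base -/
noncomputable def b1 : P1.Base where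
  support := {true}
  linearIndepOn_root := by
    rw [Finset.coe_singleton, linearIndepOn_singleton_iff]
    simp [root_eq', sg]
  linearIndepOn_coroot := by
    rw [Finset.coe_singleton, linearIndepOn_singleton_iff]
    simp [coroot_eq', sg]
  root_mem_or_neg_mem r := by
    cases r
    · right; apply AddSubmonoid.subset_closure; simp [root_eq', sg]
    · left; apply AddSubmonoid.subset_closure; simp
  coroot_mem_or_neg_mem r := by
    cases r
    · right; apply AddSubmonoid.subset_closure; simp [coroot_eq', sg]
    · left; apply AddSubmonoid.subset_closure; simp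

variable {F : Type*} [Field F]

/-- conjugation with the antidiagonal matrix -/
def flip (A : SL2 F) : SL2 F :=
  mk2 (ent A 1 1) (ent A 1 0) (ent A 0 1) (ent A 0 0) (by
    have := ent_det A; linear_combination this)

/-- the homomorphisms -/
def ph (r : Bool) : SL2 F →* SL2 F :=
  if r then MonoidHom.id _ else MonoidHom.mk' flip (by
    intro A B
    apply ext2 <;> simp only [flip, ent_mul, ent_mk2_00, ent_mk2_01, ent_mk2_10, ent_mk2_11] <;>
      ring)

theorem ph_true (A : SL2 F) : ph true A = A := rfl
theorem ph_false (A : SL2 F) : ph false A = flip A := rfl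

/-- the root data of `SL_2(F)` -/
noncomputable def D1 : RootData P1 b1 F (fun _ : Bool => F) (SL2 F) where
  φ := ph
  neg r s h := by
    refine ⟨RingEquiv.refl F, fun t => ?_⟩
    cases r <;> cases s <;> simp [root_eq', sg] at h <;> norm_num at h <;>
      apply ext2 <;> simp [ph_true, ph_false, flip, up, lo]
  comm r s h1 h2 := by
    exfalso
    cases r <;> cases s <;> simp_all [root_eq', sg]
  torus r s a := by
    refine ⟨if r = s then a ^ 2 else a⁻¹ ^ 2, fun A => ?_⟩
    cases r <;> cases s <;> apply ext2 <;>
      simp only [ph_true, ph_false, flip, dg, tw, ent_mul, ent_inv_00, ent_inv_01, ent_inv_10,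
        ent_inv_11, ent_mk2_00, ent_mk2_01, ent_mk2_10, ent_mk2_11, RingEquiv.refl_apply] <;>
      simp <;> field_simp
  torus_base r s a A := by
    rw [pairingIn_eq]
    cases r <;> cases s <;> apply ext2 <;>
      simp only [ph_true, ph_false, flip, dg, tw, ent_mul, ent_inv_00, ent_inv_01, ent_inv_10,
        ent_inv_11, ent_mk2_00, ent_mk2_01, ent_mk2_10, ent_mk2_11, RingEquiv.refl_apply] <;>
      simp <;> field_simp
  gen H h := by
    rw [eq_top_iff]
    intro A _
    have := h true (by simp [b1]) A
    rwa [ph_true] at this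

theorem tw_pi (σ : F ≃+* F) (r : Bool) (A : SL2 F) :
    ph r (tw 1 σ A) = tw 1 σ (ph r A) := by
  cases r <;> apply ext2 <;>
    simp [ph_true, ph_false, flip, tw]

/-- the field automorphism of `SL_2(F)` -/
def fieldAut (σ : F ≃+* F) : MulAut (SL2 F) :=
  MulEquiv.mk' (Equiv.mk (tw 1 σ) (tw 1 σ.symm)
    (fun A => by rw [tw_comp]; apply ext2 <;> simp [tw])
    (fun A => by rw [tw_comp]; apply ext2 <;> simp [tw])) (tw_mul 1 σ)

theorem standard1 (σ : F ≃+* F) : IsStandard (D1 (F := F)) 1 σ (fieldAut σ) where
  additive := ⟨AddMonoidHom.id ℚ, fun _ => rfl⟩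
  simple i hi := hi
  act r := ⟨1, σ, fun _ => rfl, fun A => (tw_pi σ r A).symm⟩

/-- the main theorem for `SL_2(F)` -/
theorem example1 [Finite F] (σ : F ≃+* F) (hσ : ∃ z, σ (σ z) ≠ z)
    (hq : 4 ≤ Nat.card {z : F // σ z = z}) :
    ∃ x ∈ coset (fieldAut σ), cls x * cls x = coset (fieldAut σ ^ 2) := by
  refine standard_main (D1 (F := F)) (standard1 σ) hσ ?_
  intro j _
  rw [orderOf_one, Fintype.sum_bool]
  have h4 : (4 : ℤ) ≤ Nat.card {z : F // σ z = z} := by exact_mod_cast hq
  have h1 : Module.finrank F F = 1 := Module.finrank_self F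
  simp only [pairingIn_eq, h1]
  cases j <;> simp <;> linarith

end Ex

end ChevT
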