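import Pool.Agent.Helper49.Chev.Data

/-!
A Lang type theorem for standard automorphisms acting on the unipotent subgroups.
-/

namespace ChevT

open RootPairing

namespace RootData

variable {ι R M N : Type*} [CommRing R] [CharZero R] [AddCommGroup M] [Module R M]
  [AddCommGroup N] [Module R N] {P : RootPairing ι R M N} [P.IsCrystallographic] {b : P.Base}
  {F : Type*} [Field F] {K : ι → Type*} [∀ r, Field (K r)] [∀ r, Algebra F (K r)]
  {G : Type*} [Group G] (D : RootData P b F K G)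

variable {α : MulAut G} {π : ι → ι}

theorem map_U (hα : ∀ r t, ∃ t', α (D.x r t) = D.x (π r) t') {w : ι → ℤ}
    (hw : ∀ r, wt b w (π r) = wt b w r) (m : ℤ) : ∀ u ∈ D.U w m, α u ∈ D.U w m := by
  intro u hu
  refine Subgroup.closure_induction (p := fun u _ => α u ∈ D.U w m) ?_ ?_ ?_ ?_ hu
  · rintro _ ⟨r, t, hr, rfl⟩
    obtain ⟨t', ht'⟩ := hα r t
    rw [ht']
    exact D.x_mem_U (by rw [hw]; exact hr) _
  · rw [map_one]; exact Subgroup.one_mem _
  · intro a c _ _ ha hc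
    rw [map_mul]; exact Subgroup.mul_mem _ ha hc
  · intro a _ ha
    rw [map_inv]; exact Subgroup.inv_mem _ ha

/-- one step of the Lang theorem -/
theorem lang_step (hα : ∀ r t, ∃ t', α (D.x r t) = D.x (π r) t') {w : ι → ℤ}
    (hw : ∀ r, wt b w (π r) = wt b w r) {m : ℤ} (hm : 1 ≤ m)
    (hL : ∀ r, 1 ≤ wt b w r → ∀ z, ∃ y y' : K r, ∃ L : ℕ, (α ^ L) (D.x r y) = D.x r y' ∧
      y - y' = z) :
    ∀ u ∈ D.U w m, ∃ v ∈ D.U w m, v⁻¹ * u * α v ∈ D.U w (m + 1) := by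
  have hm0 : 0 ≤ m := by omega
  have hm1 : 1 ≤ m + 1 := by omega
  have hαU := D.map_U hα hw m
  -- the set of good elements as a subgroup
  set S : Subgroup G :=
    { carrier := {u | u ∈ D.U w m ∧ ∃ v ∈ D.U w m, v⁻¹ * u * α v ∈ D.U w (m + 1)}
      mul_mem' := by
        rintro u1 u2 ⟨h1, v1, hv1, e1⟩ ⟨h2, v2, hv2, e2⟩
        refine ⟨Subgroup.mul_mem _ h1 h2, v1 * v2, Subgroup.mul_mem _ hv1 hv2, ?_⟩
        have h3 := D.U_comm hm (α v1)⁻¹ (Subgroup.inv_mem _ (hαU v1 hv1)) u2 h2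
        have h4 := D.U_norm' hm1 hm0 hv2 e1
        have h5 := D.U_norm' hm1 hm0 hv2 h3
        have h6 := Subgroup.mul_mem _ (Subgroup.mul_mem _ h4 h5) e2
        have e : (v1 * v2)⁻¹ * (u1 * u2) * α (v1 * v2) =
          v2⁻¹ * (v1⁻¹ * u1 * α v1) * v2 * (v2⁻¹ * ((α v1)⁻¹ * u2 * (α v1)⁻¹⁻¹ * u2⁻¹) * v2) *
          (v2⁻¹ * u2 * α v2) := by
          rw [map_mul]; group
        rw [e]; exact h6
      one_mem' := ⟨Subgroup.one_mem _, 1, Subgroup.one_mem _, by simpa using Subgroup.one_mem _⟩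
      inv_mem' := by
        rintro u ⟨h1, v, hv, e⟩
        refine ⟨Subgroup.inv_mem _ h1, v⁻¹, Subgroup.inv_mem _ hv, ?_⟩
        have h3 := D.U_comm hm v hv (α v) (hαU v hv)
        have h4 := D.U_norm hm1 hm0 (v * α v) (Subgroup.mul_mem _ hv (hαU v hv)) _
          (Subgroup.inv_mem _ e)
        have h5 := Subgroup.mul_mem _ h4 h3
        have e' : v⁻¹⁻¹ * u⁻¹ * α v⁻¹ = v * α v * (v⁻¹ * u * α v)⁻¹ * (v * α v)⁻¹ *
          (v * α v * v⁻¹ * (α v)⁻¹) := by
          rw [map_inv]; group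
        rw [e']; exact h5 } with hS
  have hSmem : ∀ u, u ∈ S ↔ u ∈ D.U w m ∧ ∃ v ∈ D.U w m, v⁻¹ * u * α v ∈ D.U w (m + 1) :=
    fun u => Iff.rfl
  have hquot : ∀ v ∈ D.U w m, v * (α v)⁻¹ ∈ S := by
    intro v hv
    rw [hSmem]
    refine ⟨Subgroup.mul_mem _ hv (Subgroup.inv_mem _ (hαU v hv)), v, hv, ?_⟩
    have : v⁻¹ * (v * (α v)⁻¹) * α v = 1 := by group
    rw [this]; exact Subgroup.one_mem _
  have hle : D.U w m ≤ S := by
    apply D.U_le
    intro r z hr
    by_cases hr2 : m + 1 ≤ wt b w r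
    · rw [hSmem]
      refine ⟨D.x_mem_U hr z, 1, Subgroup.one_mem _, ?_⟩
      simpa using D.x_mem_U hr2 z
    · obtain ⟨y, y', L, hL1, hy⟩ := hL r (by omega) z
      have hg : ∀ k : ℕ, (α ^ k) (D.x r y) ∈ D.U w m := by
        intro k
        induction k with
        | zero => simpa using D.x_mem_U hr y
        | succ k ih => rw [pow_succ', MulAut.mul_apply]; exact hαU _ ih
      have htel : ∀ k : ℕ, D.x r y * ((α ^ k) (D.x r y))⁻¹ ∈ S := by
        intro k
        induction k with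
        | zero => simpa using S.one_mem
        | succ k ih =>
          have h1 := hquot _ (hg k)
          have h2 := S.mul_mem ih h1
          have e : D.x r y * ((α ^ (k + 1)) (D.x r y))⁻¹ =
            D.x r y * ((α ^ k) (D.x r y))⁻¹ * ((α ^ k) (D.x r y) * (α ((α ^ k) (D.x r y)))⁻¹) := by
            rw [pow_succ', MulAut.mul_apply]; group
          rw [e]; exact h2
      have h3 := htel L
      rw [hL1, ← D.x_neg, ← D.x_add, ← sub_eq_add_neg, hy] at h3
      exact h3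
  intro u hu
  exact ((hSmem u).1 (hle hu)).2

/-- **Lang type theorem** -/
theorem lang [Finite ι] (hα : ∀ r t, ∃ t', α (D.x r t) = D.x (π r) t') {w : ι → ℤ}
    (hw : ∀ r, wt b w (π r) = wt b w r)
    (hL : ∀ r, 1 ≤ wt b w r → ∀ z, ∃ y y' : K r, ∃ L : ℕ, (α ^ L) (D.x r y) = D.x r y' ∧
      y - y' = z) :
    ∀ u ∈ D.U w 1, ∃ v, u = v * (α v)⁻¹ := by
  obtain ⟨m0, hm0⟩ := D.U_bot w
  have key : ∀ n : ℕ, ∀ m : ℤ, 1 ≤ m → m0 ≤ m + n → ∀ u ∈ D.U w m, ∃ v ∈ D.U w m,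
      u = v * (α v)⁻¹ := by
    intro n
    induction n with
    | zero =>
      intro m hm1 hm2 u hu
      rw [hm0 m (by simpa using hm2), Subgroup.mem_bot] at hu
      exact ⟨1, Subgroup.one_mem _, by simp [hu]⟩
    | succ n ih =>
      intro m hm1 hm2 u hu
      obtain ⟨v, hv, e⟩ := D.lang_step hα hw hm1 hL u hu
      obtain ⟨v', hv', e'⟩ := ih (m + 1) (by omega) (by push_cast at hm2; omega) _ e
      refine ⟨v * v', Subgroup.mul_mem _ hv (D.U_mono (by omega) hv'), ?_⟩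
      have : u = v * (v⁻¹ * u * α v) * (α v)⁻¹ := by group
      rw [this, e', map_mul]; group
  intro u hu
  obtain ⟨v, -, e⟩ := key (m0 - 1).toNat 1 le_rfl (by omega) u hu
  exact ⟨v, e⟩

end RootData

end ChevT
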