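import Mathlib

/-!
Two counting lemmas: an element `ν` of large order modulo `{z / σ^L z}`, and avoiding finitely many
congruences.
-/

namespace ChevT

section nu

variable {A : Type*} [CommGroup A]

theorem telescope (s : A →* A) (L : ℕ) (z : A) : ∃ t, z / s^[L] z = t / s t := by
  induction L with
  | zero => exact ⟨1, by simp⟩
  | succ L ih =>
    obtain ⟨t, ht⟩ := ih
    refine ⟨t * s^[L] z, ?_⟩
    rw [Function.iterate_succ_apply', map_mul, mul_div_mul_comm, ← ht, div_mul_div_cancel]

/-- iterates as homomorphisms -/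
def itHom (s : A →* A) : ℕ → (A →* A)
  | 0 => MonoidHom.id A
  | L + 1 => s.comp (itHom s L)

theorem itHom_apply (s : A →* A) (L : ℕ) (z : A) : itHom s L z = s^[L] z := by
  induction L with
  | zero => rfl
  | succ L ih => rw [Function.iterate_succ_apply', ← ih]; rfl

theorem exists_nu [Finite A] [IsCyclic A] (s : A →* A) (L : ℕ) :
    ∃ ν : A, (∃ z, ν / s ν = z / s^[L] z) ∧
      ∀ k : ℤ, (∃ z, ν ^ k = z / s^[L] z) → (Nat.card {z : A // s z = z} : ℤ) ∣ k := by
  set δ1 : A →* A := MonoidHom.id A / s with hδ1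
  have hδ1a : ∀ z, δ1 z = z / s z := fun z => rfl
  set δL : A →* A := MonoidHom.id A / itHom s L with hδL
  have hδLa : ∀ z, δL z = z / s^[L] z := by
    intro z
    show z / itHom s L z = _
    rw [itHom_apply]
  set B : Subgroup A := δL.range with hB
  set D : Subgroup A := B.comap δ1 with hD
  have hBle : ∀ b ∈ B, ∃ t, δ1 t = b := by
    rintro _ ⟨z, rfl⟩
    rw [hδLa]
    obtain ⟨t, ht⟩ := telescope s L z
    exact ⟨t, by rw [hδ1a, ht]⟩
  -- the surjection `D → B`
  set f : D →* B := (δ1.comp D.subtype).codRestrict B (fun z => z.2) with hf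
  have hfa : ∀ z : D, ((f z : B) : A) = δ1 z := fun z => rfl
  have hfs : f.range = ⊤ := by
    rw [MonoidHom.range_eq_top]
    rintro ⟨b, hb⟩
    obtain ⟨t, ht⟩ := hBle b hb
    exact ⟨⟨t, by rw [hD, Subgroup.mem_comap, ht]; exact hb⟩, Subtype.ext ht⟩
  have hker : Nat.card f.ker = Nat.card {z : A // s z = z} := by
    apply Nat.card_congr
    refine ⟨fun z => ⟨(z : D), ?_⟩, fun z => ⟨⟨z.1, ?_⟩, ?_⟩, fun z => ?_, fun z => ?_⟩
    · have h := z.2
      rw [MonoidHom.mem_ker] at h
      have h2 := congrArg (fun b : B => (b : A)) h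
      simp only [hfa] at h2
      rw [hδ1a] at h2
      have h3 : ((z : D) : A) / s ((z : D) : A) = 1 := h2
      exact (div_eq_one.1 h3).symm
    · rw [hD, Subgroup.mem_comap, hδ1a, z.2, div_self']
      exact B.one_mem
    · rw [MonoidHom.mem_ker]
      apply Subtype.ext
      rw [hfa, hδ1a]
      show z.1 / s z.1 = 1
      rw [z.2, div_self']
    · rfl
    · rfl
  have hcard : Nat.card D = Nat.card {z : A // s z = z} * Nat.card B := by
    rw [← hker, ← f.ker.card_mul_index, Subgroup.index_ker, hfs]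
    congr 1
    exact Nat.card_congr Subgroup.topEquiv.toEquiv
  obtain ⟨ν, hν⟩ := IsCyclic.exists_generator (α := D)
  have hord : orderOf ν = Nat.card D := orderOf_eq_card_of_forall_mem_zpowers hν
  refine ⟨(ν : A), ?_, ?_⟩
  · have h : δ1 ν ∈ δL.range := ν.2
    obtain ⟨z, hz⟩ := h
    exact ⟨z, by rw [← hδ1a, ← hz, hδLa]⟩
  · rintro k ⟨z, hz⟩
    have hb : (ν : A) ^ k ∈ B := ⟨z, by rw [hδLa, hz]⟩
    have h1 : ((ν : A) ^ k) ^ Nat.card B = 1 := by
      have := pow_card_eq_one' (G := B) (x := ⟨_, hb⟩)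
      have h2 := congrArg (fun b : B => (b : A)) this
      exact h2
    have h2 : ν ^ (k * (Nat.card B : ℤ)) = 1 := by
      apply Subtype.ext
      rw [Subgroup.coe_zpow, Subgroup.coe_one, zpow_mul, zpow_natCast]; exact h1
    rw [← orderOf_dvd_iff_zpow_eq_one, hord, hcard] at h2
    push_cast at h2
    have hBpos : (0 : ℤ) < Nat.card B := by exact_mod_cast Nat.card_pos
    exact Int.dvd_of_mul_dvd_mul_right hBpos.ne' h2

end nu

section avoid

variable {I T : Type*} [Fintype I] [Fintype T]

/-- few elements of `Fin N` satisfy a congruence -/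
theorem floor_inj {N : ℕ} {a : ℕ} (ha : 0 < a) {x y : ℕ}
    (h1 : (N : ℤ) ∣ (a : ℤ) * ((x : ℤ) - y)) (h2 : a * x / N = a * y / N) : x = y := by
  have h3 : ((a * x : ℕ) : ℤ) ≡ ((a * y : ℕ) : ℤ) [ZMOD N] := by
    rw [Int.modEq_iff_dvd]
    have : (N : ℤ) ∣ -((a : ℤ) * ((x : ℤ) - y)) := (dvd_neg).2 h1
    convert this using 1
    push_cast; ring
  have h4 : a * x % N = a * y % N := by
    have := (Int.natCast_modEq_iff.1 h3)
    exact this
  have h5 : a * x = a * y := by
    rw [← Nat.div_add_mod (a * x) N, ← Nat.div_add_mod (a * y) N, h2, h4]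
  exact Nat.eq_of_mul_eq_mul_left ha h5

/-- few elements of `Fin N` satisfy a congruence -/
theorem card_bad {N : ℕ} (hN : 0 < N) {a : ℤ} (ha : a ≠ 0) (S : Finset (Fin N))
    (hS : ∀ x ∈ S, ∀ y ∈ S, (N : ℤ) ∣ a * (((x : ℕ) : ℤ) - ((y : ℕ) : ℤ))) :
    S.card ≤ a.natAbs := by
  have h4 : 0 < a.natAbs := Int.natAbs_pos.2 ha
  have : S.card ≤ (Finset.range a.natAbs).card := by
    apply Finset.card_le_card_of_injOn (fun x : Fin N => a.natAbs * (x : ℕ) / N)
    · intro x _
      simp only [Finset.coe_range, Set.mem_Iio]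
      rw [Nat.div_lt_iff_lt_mul hN]
      exact Nat.mul_lt_mul_of_pos_left x.2 h4
    · intro x hx y hy heq
      simp only at heq
      have h5 := hS x hx y hy
      have h6 : (N : ℤ) ∣ ((a).natAbs : ℤ) * (((x : ℕ) : ℤ) - ((y : ℕ) : ℤ)) := by
        rcases Int.natAbs_eq a with h | h
        · rw [← h]; exact h5
        · have h7 : ((a).natAbs : ℤ) = -a := by rw [h]; simp
          rw [h7, neg_mul, dvd_neg]; exact h5
      exact Fin.ext (floor_inj h4 h6 heq)
  rwa [Finset.card_range] at this

/-- avoiding finitely many congruences, one coordinate after the other -/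
theorem avoid (N : ℕ) (hN : 0 < N) (A : T → I → ℤ) (hA : ∀ r, ∃ j, A r j ≠ 0)
    (bad : T → (I → ℕ) → Prop)
    (hdep : ∀ r (m m' : I → ℕ), (∀ i, A r i ≠ 0 → m i = m' i) → bad r m → bad r m')
    (hbad : ∀ r (m m' : I → ℕ) (j : I), (∀ i, i ≠ j → m i = m' i) → bad r m → bad r m' →
      (N : ℤ) ∣ A r j * ((m j : ℤ) - m' j))
    (hsum : ∀ j, ∑ r, |A r j| < N) : ∃ m : I → ℕ, ∀ r, ¬ bad r m := by
  classical
  have key : ∀ s : Finset I, ∃ m : I → ℕ, ∀ r, (∀ i, A r i ≠ 0 → i ∈ s) → ¬ bad r m := by
    intro s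
    induction s using Finset.induction_on with
    | empty =>
      refine ⟨fun _ => 0, fun r hr => ?_⟩
      obtain ⟨j, hj⟩ := hA r
      exact absurd (hr j hj) (by simp)
    | insert j s hj ih =>
      obtain ⟨m, hm⟩ := ih
      -- bad values of the new coordinate
      set Bs : T → Finset (Fin N) := fun r =>
        Finset.univ.filter fun x => A r j ≠ 0 ∧ bad r (Function.update m j (x : ℕ)) with hBs
      have h1 : ∀ r, (Bs r).card ≤ (A r j).natAbs := by
        intro r
        by_cases h0 : A r j = 0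
        · have : Bs r = ∅ := by simp [hBs, h0]
          rw [this]; simp
        · apply card_bad hN h0
          intro x hx y hy
          simp only [hBs, Finset.mem_filter, Finset.mem_univ, true_and] at hx hy
          have := hbad r _ _ j (fun i hi => by simp [hi]) hx.2 hy.2
          simpa using this
      have h2 : ∑ r, (Bs r).card < N := by
        have h3 := hsum j
        have h4 : ((∑ r, (Bs r).card : ℕ) : ℤ) ≤ ∑ r, |A r j| := by
          push_cast
          apply Finset.sum_le_sum
          intro r _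
          rw [Int.abs_eq_natAbs]
          exact_mod_cast h1 r
        exact_mod_cast lt_of_le_of_lt h4 h3
      have h3 : ∃ x : Fin N, x ∉ Finset.univ.biUnion Bs := by
        by_contra hcon
        push Not at hcon
        have h4 : Finset.univ ⊆ Finset.univ.biUnion Bs := fun x _ => hcon x
        have h5 := Finset.card_le_card h4
        have h6 : (Finset.univ.biUnion Bs).card ≤ ∑ r, (Bs r).card := Finset.card_biUnion_le
        rw [Finset.card_univ, Fintype.card_fin] at h5
        omega
      obtain ⟨x, hx⟩ := h3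
      refine ⟨Function.update m j x, fun r hr hb => ?_⟩
      by_cases h0 : A r j = 0
      · refine hm r (fun i hi => ?_) (hdep r _ _ (fun i hi => ?_) hb)
        · rcases Finset.mem_insert.1 (hr i hi) with h | h
          · subst h; exact absurd h0 hi
          · exact h
        · have : i ≠ j := by rintro rfl; exact hi h0
          simp [this]
      · apply hx
        rw [Finset.mem_biUnion]
        refine ⟨r, Finset.mem_univ _, ?_⟩
        simp only [hBs, Finset.mem_filter, Finset.mem_univ, true_and]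
        exact ⟨h0, hb⟩
  obtain ⟨m, hm⟩ := key Finset.univ
  exact ⟨m, fun r => hm r (fun i _ => Finset.mem_univ i)⟩

end avoid

end ChevT
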