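import Pool.Agent.Helper49.Chev.Build
import Pool.Agent.Helper49.Chev.Lang
import Pool.Agent.Helper49.Chev.Torus
import Pool.Agent.Helper49.Chev.Diagram

/-!
The main theorem for standard automorphisms of groups with root data.
-/

namespace ChevT

open RootPairing CosetT
open scoped Pointwise

/-- the map on units from the base field -/
def bu (F L : Type*) [Field F] [Field L] [Algebra F L] : Fˣ →* Lˣ :=
  Units.map (algebraMap F L : F →* L)

theorem bu_coe {F L : Type*} [Field F] [Field L] [Algebra F L] (a : Fˣ) :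
    ((bu F L a : Lˣ) : L) = algebraMap F L a := rfl

/-- products of constants along an orbit -/
def Cu {ι A : Type*} [CommGroup A] (π : ι → ι) (c : ι → A) (s : A →* A) : ℕ → ι → A
  | 0, _ => 1
  | k + 1, r => c (π^[k] r) * s (Cu π c s k r)

/-- the subgroup `{z / s^L z}` -/
def Bs {A : Type*} [CommGroup A] (s : A →* A) (L : ℕ) : Subgroup A :=
  (MonoidHom.id A / itHom s L).range

theorem mem_Bs {A : Type*} [CommGroup A] (s : A →* A) (L : ℕ) (a : A) :
    a ∈ Bs s L ↔ ∃ z, a = z / s^[L] z := by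
  rw [Bs, MonoidHom.mem_range]
  constructor
  · rintro ⟨z, hz⟩
    refine ⟨z, ?_⟩
    rw [← hz, ← itHom_apply]; rfl
  · rintro ⟨z, hz⟩
    refine ⟨z, ?_⟩
    rw [hz, ← itHom_apply]; rfl

theorem iter_comm {A : Type*} [CommGroup A] (s : A →* A) (L : ℕ) (z : A) :
    s (s^[L] z) = s^[L] (s z) := by
  rw [← Function.iterate_succ_apply' (⇑s) L z, Function.iterate_succ_apply]

theorem map_Bs {A : Type*} [CommGroup A] (s : A →* A) (L : ℕ) {a : A} (h : a ∈ Bs s L) :
    s a ∈ Bs s L := by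
  rw [mem_Bs] at h ⊢
  obtain ⟨z, rfl⟩ := h
  exact ⟨s z, by rw [map_div, iter_comm]⟩

/-- the constants `s(ν^e)` accumulate to powers of `ν` -/
theorem Cu_twist {ι A : Type*} [CommGroup A] (π : ι → ι) (s : A →* A) (ν : A) (L : ℕ)
    (hν : ν / s ν ∈ Bs s L) (e : ι → ℤ) (k : ℕ) (r : ι) :
    Cu π (fun r => s (ν ^ e r)) s k r / ν ^ (∑ i ∈ Finset.range k, e (π^[i] r)) ∈ Bs s L := by
  have hν' : ∀ n : ℤ, s (ν ^ n) / ν ^ n ∈ Bs s L := by
    intro n
    have h1 := (Bs s L).inv_mem ((Bs s L).zpow_mem hν n)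
    rw [div_zpow, inv_div, ← map_zpow] at h1
    exact h1
  induction k with
  | zero => simp [Cu, (Bs s L).one_mem]
  | succ k ih =>
    rw [Finset.sum_range_succ]
    simp only [Cu]
    set S := ∑ i ∈ Finset.range k, e (π^[i] r) with hS
    have h1 := map_Bs s L ih
    have h2 := hν' (e (π^[k] r))
    have h3 := hν' S
    have h4 := (Bs s L).mul_mem ((Bs s L).mul_mem h1 h2) h3
    rw [map_div] at h4
    convert h4 using 1
    rw [zpow_add]
    simp only [div_eq_mul_inv, mul_inv_rev]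
    have e1 : ∀ b c f g h : A, b * c * (f⁻¹ * g⁻¹) =
      c * h⁻¹ * (b * f⁻¹) * (h * g⁻¹) := by
      intro b c f g h
      have : c * h⁻¹ * (b * f⁻¹) * (h * g⁻¹) = (h * h⁻¹) * (b * c * (f⁻¹ * g⁻¹)) := by
        simp only [mul_assoc, mul_comm, mul_left_comm]
      rw [this, mul_inv_cancel, one_mul]
    exact e1 _ _ _ _ _

/-- surjectivity from nontriviality -/
theorem surj_of_ne {L : Type*} [Field L] [Finite L] (ρ : L ≃+* L) (C : Lˣ)
    (h : ∀ z : Lˣ, (C : L) * ρ z ≠ z) (z : L) : ∃ y, y - (C : L) * ρ y = z := by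
  have hinj : Function.Injective fun y : L => y - (C : L) * ρ y := by
    intro y y' hyy
    simp only at hyy
    by_contra hne
    have hd : y - y' ≠ 0 := sub_ne_zero.2 hne
    apply h (Units.mk0 _ hd)
    rw [Units.val_mk0, map_sub]
    linear_combination -hyy
  exact (Finite.injective_iff_surjective.1 hinj) z

theorem units_iter {F : Type*} [Field F] (σ : F ≃+* F) (k : ℕ) (z : Fˣ) :
    (((Units.map (σ : F →* F))^[k] z : Fˣ) : F) = σ^[k] (z : F) := by
  induction k with
  | zero => rfl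
  | succ k ih =>
    rw [Function.iterate_succ_apply', Function.iterate_succ_apply', Units.coe_map, ih]; rfl

/-- iterates as automorphisms -/
theorem exists_iter {F : Type*} [Field F] (σ : F ≃+* F) (k : ℕ) :
    ∃ τ : F ≃+* F, ∀ a, τ a = σ^[k] a := by
  induction k with
  | zero => exact ⟨RingEquiv.refl F, fun a => rfl⟩
  | succ k ih =>
    obtain ⟨τ, hτ⟩ := ih
    exact ⟨τ.trans σ, fun a => by rw [Function.iterate_succ_apply', ← hτ]; rfl⟩

/-- norm argument -/
theorem norm_arg {F L : Type*} [Field F] [Finite F] [Field L] [Finite L] [Algebra F L]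
    (σ : F ≃+* F) (k : ℕ) (ρ : L ≃+* L)
    (hρ : ∀ a : F, ρ (algebraMap F L a) = algebraMap F L (σ^[k] a)) (u : Fˣ) (z : Lˣ)
    (h : algebraMap F L u * ρ z = z) :
    u ^ Module.finrank F L ∈ Bs (Units.map (σ : F →* F)) k := by
  obtain ⟨τ, hτ⟩ := exists_iter σ k
  rw [mem_Bs]
  have hN : ∀ y : L, Algebra.norm F (ρ y) = τ (Algebra.norm F y) := by
    intro y
    have := Algebra.norm_eq_of_equiv_equiv τ ρ (by
      ext a
      simp only [RingHom.coe_comp, Function.comp_apply, RingHom.coe_coe]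
      rw [hρ, hτ]) y
    rw [this, RingEquiv.apply_symm_apply]
  have hz : Algebra.norm F (z : L) ≠ 0 := by
    rw [Ne, Algebra.norm_eq_zero_iff]; exact z.ne_zero
  refine ⟨Units.mk0 _ hz, ?_⟩
  rw [eq_div_iff_mul_eq']
  apply Units.ext
  have h2 := congrArg (Algebra.norm F) h
  rw [map_mul, Algebra.norm_algebraMap, hN, hτ] at h2
  rw [Units.val_mul, units_iter, Units.val_mk0, Units.val_pow_eq_pow_val]
  exact h2

namespace RootData

variable {ι R M N : Type*} [CommRing R] [CharZero R] [AddCommGroup M] [Module R M]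
  [AddCommGroup N] [Module R N] {P : RootPairing ι R M N} [P.IsCrystallographic] {b : P.Base}
  {F : Type*} [Field F] {K : ι → Type*} [∀ r, Field (K r)] [∀ r, Algebra F (K r)]
  {G : Type*} [Group G] (D : RootData P b F K G)

omit [CharZero R] in
/-- torus elements with prescribed exponents -/
theorem exists_torus (ν : Fˣ) (m : b.support → ℕ) :
    ∃ t : G, ∀ r A, t * D.φ r A * t⁻¹ =
      D.φ r (tw (bu F (K r) (ν ^ (∑ j, (m j : ℤ) * P.pairingIn ℤ r j))) (RingEquiv.refl _) A) := by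
  classical
  have key : ∀ s : Finset b.support, ∃ t : G, ∀ r A, t * D.φ r A * t⁻¹ =
      D.φ r (tw (bu F (K r) (ν ^ (∑ j ∈ s, (m j : ℤ) * P.pairingIn ℤ r j)))
        (RingEquiv.refl _) A) := by
    intro s
    induction s using Finset.induction_on with
    | empty => exact ⟨1, fun r A => by rw [Finset.sum_empty, zpow_zero, map_one, tw_one]; simp⟩
    | insert j s hj ih =>
      obtain ⟨t, ht⟩ := ih
      refine ⟨D.φ j (dg (bu F (K j) (ν ^ (m j)))) * t, fun r A => ?_⟩
      have e : D.φ j (dg (bu F (K j) (ν ^ (m j)))) * t * D.φ r A *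
          (D.φ j (dg (bu F (K j) (ν ^ (m j)))) * t)⁻¹ =
        D.φ j (dg (bu F (K j) (ν ^ (m j)))) * (t * D.φ r A * t⁻¹) *
          (D.φ j (dg (bu F (K j) (ν ^ (m j)))))⁻¹ := by group
      have h2 := D.torus_base j r (ν ^ (m j))
      rw [e, ht]
      have h3 := h2 (tw (bu F (K r) (ν ^ (∑ j ∈ s, (m j : ℤ) * P.pairingIn ℤ r j)))
        (RingEquiv.refl _) A)
      refine h3.trans ?_
      rw [tw_tw, Finset.sum_insert hj, zpow_add, zpow_mul, zpow_natCast, map_mul]
      rfl
  exact key Finset.univ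

variable {α : MulAut G} {π : Equiv.Perm ι} {θ : M →+ M} {σ : F ≃+* F}
  {c : ∀ r, (K (π r))ˣ} {σr : ∀ r, K r ≃+* K (π r)}

omit [CharZero R] in
/-- powers of the automorphisms `α t` -/
theorem pow_form (hα : ∀ r A, α (D.φ r A) = D.φ (π r) (tw (c r) (σr r) A))
    (hσr : ∀ r a, σr r (algebraMap F (K r) a) = algebraMap F (K (π r)) (σ a)) (k : ℕ) :
    ∀ r s, π^[k] r = s → ∃ (C : (K s)ˣ) (ρ : K r ≃+* K s),
      (∀ a : F, ρ (algebraMap F (K r) a) = algebraMap F (K s) (σ^[k] a)) ∧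
      ∀ (ν : Fˣ) (e : ι → ℤ) (t : G), (∀ r A, t * D.φ r A * t⁻¹ =
        D.φ r (tw (bu F (K r) (ν ^ e r)) (RingEquiv.refl _) A)) → ∀ A,
        ((α * MulAut.conj t) ^ k) (D.φ r A) = D.φ s (tw (C * bu F (K s)
          (Cu π (fun r => Units.map (σ : F →* F) (ν ^ e r)) (Units.map (σ : F →* F)) k r)) ρ A) := by
  induction k with
  | zero =>
    rintro r s rfl
    refine ⟨1, RingEquiv.refl _, fun a => rfl, fun ν e t ht A => ?_⟩
    simp only [Cu, pow_zero, map_one, mul_one]
    show D.φ r A = _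
    congr 1
    exact (tw_one A).symm
  | succ k ih =>
    intro r s hs
    rw [Function.iterate_succ_apply'] at hs
    obtain ⟨s0, hs0⟩ : ∃ s0, π^[k] r = s0 := ⟨_, rfl⟩
    rw [hs0] at hs
    obtain ⟨C, ρ, h1, h2⟩ := ih r s0 hs0
    subst hs
    refine ⟨c s0 * Units.map (σr s0 : K s0 →* K (π s0)) C, ρ.trans (σr s0), fun a => ?_,
      fun ν e t ht A => ?_⟩
    · rw [RingEquiv.trans_apply, h1, hσr, Function.iterate_succ_apply']
    · rw [pow_succ', MulAut.mul_apply, h2 ν e t ht, MulAut.mul_apply, MulAut.conj_apply, ht, hα,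
        tw_comp, tw_comp]
      congr 1
      have e1 : (RingEquiv.refl (K s0)).trans (σr s0) = σr s0 := by ext; rfl
      rw [e1]
      congr 1
      simp only [Cu, hs0, map_mul]
      have e2 : ∀ u : Fˣ, Units.map (σr s0 : K s0 →* K (π s0)) (bu F (K s0) u) =
          bu F (K (π s0)) (Units.map (σ : F →* F) u) := by
        intro u
        apply Units.ext
        show σr s0 (algebraMap F (K s0) u) = algebraMap F (K (π s0)) (σ u)
        exact hσr s0 u
      rw [e2, e2]
      exact mul_mul_mul_comm _ _ _ _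

variable [Finite ι] [IsDomain R] [P.IsReduced] [Module.IsTorsionFree R M]

/-- the automorphisms `α t` are admissible -/
theorem adm_sq (hα : ∀ r A, α (D.φ r A) = D.φ (π r) (tw (c r) (σr r) A))
    (hσr : ∀ r a, σr r (algebraMap F (K r) a) = algebraMap F (K (π r)) (σ a))
    (hs : ∀ i ∈ b.support, π i ∈ b.support) (hσ : ∃ z, σ (σ z) ≠ z)
    (ν : Fˣ) (e : ι → ℤ) (t : G) (ht : ∀ r A, t * D.φ r A * t⁻¹ =
        D.φ r (tw (bu F (K r) (ν ^ e r)) (RingEquiv.refl _) A)) :
    D.toSys.Adm ((α * MulAut.conj t) ^ 2) := by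
  intro i
  by_cases h : π (π i) = i
  · left
    obtain ⟨C, ρ, h1, h2⟩ := D.pow_form hα hσr 2 (i : ι) (i : ι) h
    obtain ⟨z, hz⟩ := hσ
    refine ⟨_, ρ, ⟨algebraMap F (K i) z, fun h3 => hz ?_⟩, h2 ν e t ht⟩
    rw [h1] at h3
    exact (algebraMap F (K i)).injective h3
  · right
    obtain ⟨C, ρ, h1, h2⟩ := D.pow_form hα hσr 2 (i : ι) (π (π i)) rfl
    refine ⟨⟨π (π i), hs _ (hs _ i.2)⟩, ?_, _, ρ, h2 ν e t ht⟩
    intro h2
    exact h (congrArg Subtype.val h2).symm

omit [Finite ι] [IsDomain R] [P.IsReduced] [Module.IsTorsionFree R M] [P.IsCrystallographic] in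
theorem exists_pos_neg (r : ι) (hr : ¬ 1 ≤ ht b r) : ∃ s, P.root r = -P.root s ∧ 1 ≤ ht b s := by
  obtain ⟨s, hs⟩ := exists_neg (P := P) r
  refine ⟨s, by rw [hs, neg_neg], ?_⟩
  have h3 := wt_neg b 1 hs
  have h4 := ht_ne b r
  unfold ht at hr h4 ⊢; omega

/-- the result for one element -/
theorem good [∀ r, Finite (K r)] (hα : ∀ r A, α (D.φ r A) = D.φ (π r) (tw (c r) (σr r) A))
    (hσr : ∀ r a, σr r (algebraMap F (K r) a) = algebraMap F (K (π r)) (σ a))
    (hπ : ∀ r, P.root (π r) = θ (P.root r)) (hs : ∀ i ∈ b.support, π i ∈ b.support)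
    (hσ : ∃ z, σ (σ z) ≠ z)
    (ν : Fˣ) (e : ι → ℤ) (t : G) (ht' : ∀ r A, t * D.φ r A * t⁻¹ =
        D.φ r (tw (bu F (K r) (ν ^ e r)) (RingEquiv.refl _) A))
    (L : ℕ) (hgood : ∀ r, 1 ≤ ht b r → ∃ (C : (K r)ˣ) (ρ : K r ≃+* K r),
      (∀ A, ((α * MulAut.conj t) ^ L) (D.φ r A) = D.φ r (tw C ρ A)) ∧
      ∀ z : (K r)ˣ, (C : K r) * ρ z ≠ z) :
    ∀ y ∈ coset ((α * MulAut.conj t) ^ 2), ∃ u v : G,
      y = (MulAut.conj u * (α * MulAut.conj t) * (MulAut.conj u)⁻¹) *
      (MulAut.conj v * (α * MulAut.conj t) * (MulAut.conj v)⁻¹) := by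
  set x := α * MulAut.conj t with hxdef
  -- the action of `x` on root elements
  have hx : ∀ r A, x (D.φ r A) = D.φ (π r) (tw (c r * Units.map (σr r : K r →* K (π r))
      (bu F (K r) (ν ^ e r))) (σr r) A) := by
    intro r A
    rw [hxdef, MulAut.mul_apply, MulAut.conj_apply, ht', hα, tw_comp]
    have e1 : (RingEquiv.refl (K r)).trans (σr r) = σr r := by ext; rfl
    rw [e1]
  have hx1 : ∀ r z, ∃ z', x (D.x r z) = D.x (π r) z' := by
    intro r z
    have h := hx r (up z)
    rw [tw_up] at h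
    exact ⟨_, h⟩
  have hlang1 : ∀ r, 1 ≤ ht b r → ∀ z, ∃ y y' : K r, ∃ L : ℕ, (x ^ L) (D.x r y) = D.x r y' ∧
      y - y' = z := by
    intro r hr z
    obtain ⟨C, ρ, h1, h2⟩ := hgood r hr
    obtain ⟨y, hy⟩ := surj_of_ne ρ C h2 z
    refine ⟨y, _, L, ?_, hy⟩
    have h3 := h1 (up y)
    rw [tw_up] at h3
    exact h3
  have hlang2 : ∀ r, ¬ 1 ≤ ht b r → ∀ z, ∃ y y' : K r, ∃ L : ℕ, (x ^ L) (D.x r y) = D.x r y' ∧
      y - y' = z := by
    intro r hr z
    obtain ⟨s, hs1, hs2⟩ := exists_pos_neg (b := b) r hr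
    obtain ⟨C, ρ, h1, h2⟩ := hgood s hs2
    obtain ⟨f, hf⟩ := D.lo_eq hs1
    obtain ⟨y, hy⟩ := surj_of_ne ρ C⁻¹ (fun w h => by
      apply h2 w⁻¹
      have h5 := congrArg (fun z => z⁻¹) h
      simp only [mul_inv, Units.val_inv_eq_inv_val, inv_inv] at h5
      rw [Units.val_inv_eq_inv_val, map_inv₀]
      exact h5) (f.symm z)
    refine ⟨f y, f (((C⁻¹ : (K s)ˣ) : K s) * ρ y), L, ?_, ?_⟩
    · have h3 := h1 (lo y)
      rw [tw_lo, hf, hf] at h3
      exact h3
    · rw [← map_sub, hy, RingEquiv.apply_symm_apply]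
  have hw1 : ∀ r, wt b 1 (π r) = wt b 1 r := ht_perm b hπ hs
  have hw2 : ∀ r, wt b (-1) (π r) = wt b (-1) r := fun r => by
    rw [wt_neg_w, wt_neg_w, hw1]
  apply D.toSys.criterion x (D.adm_sq hα hσr hs hσ ν e t ht')
  · exact D.map_U hx1 hw1 1
  · -- the inverse
    intro u hu
    refine Subgroup.closure_induction (p := fun u _ => x⁻¹ u ∈ D.U 1 1) ?_ ?_ ?_ ?_ hu
    · rintro _ ⟨r, z, hr, rfl⟩
      obtain ⟨r0, rfl⟩ := π.surjective r
      set C := c r0 * Units.map (σr r0 : K r0 →* K (π r0)) (bu F (K r0) (ν ^ e r0)) with hC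
      have h1 : x (D.x r0 ((σr r0).symm (((C⁻¹ : (K (π r0))ˣ) : K (π r0)) * z))) =
          D.x (π r0) z := by
        refine (hx r0 (up _)).trans ?_
        rw [tw_up, RingEquiv.apply_symm_apply, ← hC, ← mul_assoc, ← Units.val_mul,
          mul_inv_cancel, Units.val_one, one_mul]; rfl
      rw [← h1, MulAut.inv_apply_self]
      apply D.x_mem_U
      rw [← hw1]
      exact hr
    · rw [map_one]; exact Subgroup.one_mem _
    · intro a c _ _ ha hc
      rw [map_mul]; exact Subgroup.mul_mem _ ha hc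
    · intro a _ ha
      rw [map_inv]; exact Subgroup.inv_mem _ ha
  · exact D.lang hx1 hw1 (fun r hr => hlang1 r hr)
  · refine D.lang hx1 hw2 (fun r hr => hlang2 r ?_)
    rw [wt_neg_w] at hr
    unfold ht; omega

omit [CharZero R] [P.IsCrystallographic] [Finite ι] [IsDomain R] [P.IsReduced]
  [Module.IsTorsionFree R M] [AddCommGroup M] [CommRing R] [Module R M] [AddCommGroup N]
  [Module R N] in
theorem finrank_eq {F L L' : Type*} [Field F] [Finite F] [Field L] [Field L'] [Finite L]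
    [Finite L'] [Algebra F L] [Algebra F L'] (e : L ≃+* L') :
    Module.finrank F L' = Module.finrank F L := by
  have h1 : Nat.card L = Nat.card F ^ Module.finrank F L := Module.natCard_eq_pow_finrank
  have h2 : Nat.card L' = Nat.card F ^ Module.finrank F L' := Module.natCard_eq_pow_finrank
  have h3 : Nat.card L = Nat.card L' := Nat.card_congr e.toEquiv
  rw [h1, h2] at h3
  exact (Nat.pow_right_injective Finite.one_lt_card h3).symm

end RootData

namespace RootData

variable {ι R M N : Type*} [CommRing R] [CharZero R] [AddCommGroup M] [Module R M]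
  [AddCommGroup N] [Module R N] {P : RootPairing ι R M N} [P.IsCrystallographic] {b : P.Base}
  {F : Type*} [Field F] {K : ι → Type*} [∀ r, Field (K r)] [∀ r, Algebra F (K r)]
  {G : Type*} [Group G] (D : RootData P b F K G)

/-- **Main theorem for groups with root data** -/
theorem main [Fintype ι] [IsDomain R] [P.IsReduced] [P.IsRootSystem] [Finite F]
    [∀ r, Finite (K r)] (α : MulAut G) (π : Equiv.Perm ι) (θ : M →+ M) (σ : F ≃+* F)
    (σr : ∀ r, K r ≃+* K (π r)) (c : ∀ r, (K (π r))ˣ)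
    (hα : ∀ r A, α (D.φ r A) = D.φ (π r) (tw (c r) (σr r) A))
    (hσr : ∀ r a, σr r (algebraMap F (K r) a) = algebraMap F (K (π r)) (σ a))
    (hπ : ∀ r, P.root (π r) = θ (P.root r)) (hs : ∀ i ∈ b.support, π i ∈ b.support)
    (hσ : ∃ z, σ (σ z) ≠ z)
    (hq : ∀ j ∈ b.support, orderOf π * ∑ r, Module.finrank F (K r) * |P.pairingIn ℤ r j| <
      2 * ((Nat.card {z : F // σ z = z} : ℤ) - 1)) :
    ∃ x ∈ coset α, cls x * cls x = coset (α ^ 2) := by
  classical
  have hrefl : Module.IsReflexive R M := .of_isPerfPair P.toLinearMap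
  have : Module.IsTorsionFree R M := inferInstance
  set L := orderOf π with hL
  have hL0 : 0 < L := orderOf_pos π
  have hLr : ∀ r, π^[L] r = r := by
    intro r
    have h1 : π ^ L = 1 := pow_orderOf_eq_one π
    rw [Equiv.Perm.iterate_eq_pow, h1]; rfl
  set s : Fˣ →* Fˣ := Units.map (σ : F →* F) with hsdef
  set N := Nat.card {z : Fˣ // s z = z} with hN
  have hne : Nonempty {z : Fˣ // s z = z} := ⟨⟨1, map_one s⟩⟩
  have hN0 : 0 < N := Nat.card_pos
  have hN1 : (Nat.card {z : F // σ z = z} : ℤ) - 1 = N := by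
    have e : {z : F // σ z = z} ≃ Option {z : Fˣ // s z = z} :=
      { toFun := fun z => if h : (z : F) = 0 then none else
          some ⟨Units.mk0 z h, Units.ext (by rw [hsdef, Units.coe_map]; exact z.2)⟩
        invFun := fun z => match z with
          | none => ⟨0, map_zero σ⟩
          | some z => ⟨(z : Fˣ), by
              have := congrArg Units.val z.2
              exact this⟩
        left_inv := by
          rintro ⟨z, hz⟩
          by_cases h : z = 0
          · subst h; simp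
          · simp [h]
        right_inv := by
          rintro (_ | ⟨z, hz⟩)
          · simp
          · simp }
    rw [Nat.card_congr e, Finite.card_option]; push_cast; ring
  -- the degrees
  set d : ι → ℕ := fun r => Module.finrank F (K r) with hd
  have hd1 : ∀ r, d (π r) = d r := fun r => finrank_eq (σr r)
  have hd2 : ∀ r r', P.root r' = -P.root r → d r' = d r := by
    intro r r' h
    obtain ⟨e, -⟩ := D.neg r r' h
    exact finrank_eq e
  obtain ⟨ν, hν1, hν2⟩ := exists_nu s L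
  rw [← mem_Bs] at hν1
  -- the constants of `α ^ L`
  choose C ρ hρ hC using fun r => D.pow_form hα hσr L r r (hLr r)
  set A : {r // 1 ≤ ht b r} → b.support → ℤ :=
    fun r j => ∑ k ∈ Finset.range L, P.pairingIn ℤ (π^[k] (r : ι)) j with hA
  set bad : {r // 1 ≤ ht b r} → (b.support → ℕ) → Prop :=
    fun r m => ∃ z : (K r)ˣ, ((C r : (K r)ˣ) : K r) *
      algebraMap F (K r) ((ν ^ (∑ j, (m j : ℤ) * A r j) : Fˣ) : F) * ρ r z = z with hbad
  obtain ⟨m, hm⟩ := avoid N hN0 (fun (r : {r // 1 ≤ ht b r}) j => (d r : ℤ) * A r j)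
    (fun r => by
      obtain ⟨j, hj⟩ := exists_sum_ne b hπ hs hL0 (r : ι)
      refine ⟨j, mul_ne_zero ?_ hj⟩
      have : 0 < d r := Module.finrank_pos
      exact_mod_cast this.ne') bad
    (by
      intro r m m' hmm h
      simp only [hbad] at h ⊢
      have : ∑ j, (m' j : ℤ) * A r j = ∑ j, (m j : ℤ) * A r j := by
        refine Finset.sum_congr rfl fun j _ => ?_
        by_cases h0 : A r j = 0
        · rw [h0, mul_zero, mul_zero]
        · have hdr : (d r : ℤ) ≠ 0 := by
            have : 0 < d r := Module.finrank_pos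
            exact_mod_cast this.ne'
          rw [hmm j (mul_ne_zero hdr h0)]
      rw [this]; exact h)
    (by
      intro r m m' j hj h h'
      simp only [hbad] at h h'
      obtain ⟨z, hz⟩ := h
      obtain ⟨z', hz'⟩ := h'
      set E := ∑ j, (m j : ℤ) * A r j with hE
      set E' := ∑ j, (m' j : ℤ) * A r j with hE'
      have h1 := norm_arg (L := K r) σ L (ρ r) (hρ r) (ν ^ (E - E')) (z / z') (by
        have hz0 : (z' : K r) ≠ 0 := z'.ne_zero
        have hρz0 : ρ r z' ≠ 0 := by rw [Ne, map_eq_zero_iff _ (ρ r).injective]; exact hz0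
        have hC0 : ((C r : (K r)ˣ) : K r) ≠ 0 := (C r).ne_zero
        have hE0 : algebraMap F (K r) ((ν ^ E' : Fˣ) : F) ≠ 0 := by
          rw [Ne, map_eq_zero_iff _ (algebraMap F (K r)).injective]; exact Units.ne_zero _
        have h3 : algebraMap F (K r) ((ν ^ (E - E') : Fˣ) : F) *
            algebraMap F (K r) ((ν ^ E' : Fˣ) : F) = algebraMap F (K r) ((ν ^ E : Fˣ) : F) := by
          rw [← map_mul, ← Units.val_mul, ← zpow_add, sub_add_cancel]
        rw [Units.val_div_eq_div_val, map_div₀]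
        rw [mul_div_assoc', div_eq_div_iff hρz0 hz0]
        have h4 : ((C r : (K r)ˣ) : K r) * algebraMap F (K r) ((ν ^ E' : Fˣ) : F) *
          (algebraMap F (K r) ((ν ^ (E - E') : Fˣ) : F) * ρ r z * z') =
          ((C r : (K r)ˣ) : K r) * algebraMap F (K r) ((ν ^ E' : Fˣ) : F) * (z * ρ r z') := by
          calc _ = (((C r : (K r)ˣ) : K r) * (algebraMap F (K r) ((ν ^ (E - E') : Fˣ) : F) *
            algebraMap F (K r) ((ν ^ E' : Fˣ) : F)) * ρ r z) * z' := by ring
            _ = z * z' := by rw [h3, hz]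
            _ = z * (((C r : (K r)ˣ) : K r) * algebraMap F (K r) ((ν ^ E' : Fˣ) : F) * ρ r z') := by
              rw [hz']
            _ = _ := by ring
        exact mul_left_cancel₀ (mul_ne_zero hC0 hE0) h4)
      rw [← zpow_natCast, ← zpow_mul, mem_Bs] at h1
      have h2 := hν2 _ h1
      have h3 : E - E' = A r j * ((m j : ℤ) - m' j) := by
        rw [hE, hE', ← Finset.sum_sub_distrib, Finset.sum_eq_single_of_mem j (Finset.mem_univ _)]
        · ring
        · intro i _ hi
          rw [hj i hi, sub_self]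
      rw [h3] at h2
      convert h2 using 1
      show (d r : ℤ) * A r j * _ = A r j * _ * (d r : ℤ)
      ring)
    (by
      intro j
      have h1 := sum_abs_le b hπ hs d hd1 hd2 L (j : ι)
      have h2 := hq j j.2
      rw [hN1] at h2
      have h3 : 2 * ∑ r : {r // 1 ≤ ht b r}, |(d r : ℤ) * A r j| < 2 * (N : ℤ) := lt_of_le_of_lt h1 h2
      linarith)
  obtain ⟨t, ht'⟩ := D.exists_torus ν m
  have hxc : α * MulAut.conj t ∈ coset α := ⟨t, rfl⟩
  refine ⟨α * MulAut.conj t, hxc, cls_mul_eq hxc ?_⟩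
  rintro y ⟨g, rfl⟩
  apply D.good hα hσr hπ hs hσ ν (fun r => ∑ j, (m j : ℤ) * P.pairingIn ℤ r j) t ht' L
  · intro r hr
    refine ⟨_, ρ r, hC r ν _ t ht', fun z hz => ?_⟩
    apply hm ⟨r, hr⟩
    have h1 := Cu_twist π s ν L hν1 (fun r => ∑ j, (m j : ℤ) * P.pairingIn ℤ r j) L r
    rw [mem_Bs] at h1
    obtain ⟨z0, hz0⟩ := h1
    have h3 : ∑ j, (m j : ℤ) * A ⟨r, hr⟩ j =
        ∑ i ∈ Finset.range L, ∑ j, (m j : ℤ) * P.pairingIn ℤ (π^[i] r) j := by
      simp only [hA, Finset.mul_sum]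
      rw [Finset.sum_comm]
    simp only [hbad]
    rw [h3]
    set W := Cu π (fun r => s (ν ^ (∑ j, (m j : ℤ) * P.pairingIn ℤ r j))) s L r with hW
    set E := ∑ i ∈ Finset.range L, ∑ j, (m j : ℤ) * P.pairingIn ℤ (π^[i] r) j with hE
    have hsL : s^[L] z0⁻¹ = (s^[L] z0)⁻¹ := by
      rw [← itHom_apply, ← itHom_apply, map_inv]
    have h4 : ν ^ E * s^[L] z0⁻¹ = W * z0⁻¹ := by
      rw [div_eq_div_iff_mul_eq_mul] at hz0
      rw [hsL, mul_inv_eq_iff_eq_mul, mul_right_comm, hz0, mul_inv_cancel_comm]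
    refine ⟨z * bu F (K r) z0⁻¹, ?_⟩
    have h5 := congrArg (fun w : Fˣ => algebraMap F (K r) (w : F)) h4
    simp only [Units.val_mul (ν ^ E), Units.val_mul W, map_mul] at h5
    rw [Units.val_mul, map_mul, bu_coe, hρ, ← units_iter, ← hsdef]
    rw [Units.val_mul, bu_coe] at hz
    calc _ = (C r : K r) * (algebraMap F (K r) ((ν ^ E : Fˣ) : F) *
          algebraMap F (K r) ((s^[L] z0⁻¹ : Fˣ) : F)) * ρ r z := by ring
      _ = (C r : K r) * algebraMap F (K r) (W : F) * ρ r z *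
          algebraMap F (K r) ((z0⁻¹ : Fˣ) : F) := by rw [h5]; ring
      _ = _ := by rw [hz]
  · refine ⟨(α⁻¹ t * t)⁻¹ * g, ?_⟩
    have h1 : (α * MulAut.conj t) ^ 2 = α ^ 2 * MulAut.conj (α⁻¹ t * t) := by
      rw [pow_two, pow_two, map_mul]
      have h2 := conj_mul_aut α t
      calc α * MulAut.conj t * (α * MulAut.conj t) = α * (MulAut.conj t * α) * MulAut.conj t := by
            group
        _ = _ := by rw [h2]; group
    rw [h1, map_mul (MulAut.conj) (α⁻¹ t * t)⁻¹ g, map_inv MulAut.conj]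
    group

end RootData

end ChevT
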