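import Mathlib

/-!
Coordinates of roots with respect to a base; weights.
-/

namespace ChevT

open RootPairing

variable {ι R M N : Type*} [CommRing R] [CharZero R] [AddCommGroup M] [Module R M]
  [AddCommGroup N] [Module R N] {P : RootPairing ι R M N} (b : P.Base)

/-- coordinates of a root with respect to the simple roots -/
noncomputable def coef (r : ι) : ι → ℤ := (b.exists_root_eq_sum_int r).choose

theorem root_eq (r : ι) : P.root r = ∑ j ∈ b.support, coef b r j • P.root j :=
  (b.exists_root_eq_sum_int r).choose_spec.2.2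

theorem coef_sign (r : ι) : 0 < coef b r ∨ coef b r < 0 :=
  (b.exists_root_eq_sum_int r).choose_spec.2.1

theorem coef_support (r : ι) : Function.support (coef b r) ⊆ b.support :=
  (b.exists_root_eq_sum_int r).choose_spec.1

theorem coef_unique {f g : ι → ℤ} (h : ∑ j ∈ b.support, f j • P.root j =
    ∑ j ∈ b.support, g j • P.root j) {j : ι} (hj : j ∈ b.support) : f j = g j := by
  rw [b.support.sum_subtype (p := (· ∈ b.support)) (by simp) (F := inferInstance),
    b.support.sum_subtype (p := (· ∈ b.support)) (by simp) (F := inferInstance)] at h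
  have aux := Fintype.linearIndependent_iffₛ.mp
      (b.linearIndepOn_root.restrict_scalars' ℤ) (f ∘ (↑)) (g ∘ (↑)) (by simpa) ⟨j, hj⟩
  simpa using! aux

theorem coef_eq {r : ι} {f : ι → ℤ} (h : P.root r = ∑ j ∈ b.support, f j • P.root j)
    {j : ι} (hj : j ∈ b.support) : coef b r j = f j :=
  coef_unique b (by rw [← h, ← root_eq]) hj

/-- linear functions of the coordinates -/
noncomputable def wt (w : ι → ℤ) (r : ι) : ℤ := ∑ j ∈ b.support, w j * coef b r j

theorem wt_add (w : ι → ℤ) {r s k : ι} {p q : ℤ} (h : P.root k = p • P.root r + q • P.root s) :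
    wt b w k = p * wt b w r + q * wt b w s := by
  have h1 : P.root k = ∑ j ∈ b.support, (p * coef b r j + q * coef b s j) • P.root j := by
    rw [h]
    conv_lhs => rw [root_eq b r, root_eq b s]
    rw [Finset.smul_sum, Finset.smul_sum, ← Finset.sum_add_distrib]
    refine Finset.sum_congr rfl fun j _ => ?_
    rw [add_smul, mul_smul, mul_smul]
  unfold wt
  rw [Finset.mul_sum, Finset.mul_sum, ← Finset.sum_add_distrib]
  refine Finset.sum_congr rfl fun j hj => ?_
  rw [coef_eq b h1 hj]; ring

theorem wt_neg (w : ι → ℤ) {r s : ι} (h : P.root s = -P.root r) : wt b w s = -wt b w r := by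
  have := wt_add b w (r := r) (s := r) (k := s) (p := -1) (q := 0) (by rw [h]; simp)
  rw [this]; ring

theorem wt_neg_w (w : ι → ℤ) (r : ι) : wt b (-w) r = -wt b w r := by
  unfold wt; simp

theorem coef_simple {i j : ι} (hi : i ∈ b.support) (hj : j ∈ b.support) [Decidable (j = i)] :
    coef b i j = if j = i then 1 else 0 := by
  classical
  have h : P.root i = ∑ j ∈ b.support, (if j = i then (1 : ℤ) else 0) • P.root j := by
    rw [Finset.sum_eq_single_of_mem i hi]
    · simp
    · intro k _ hk; simp [hk]
  rw [coef_eq b h hj]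
  by_cases h : j = i <;> simp [h]

/-- all coordinates of one sign -/
theorem coef_nonneg_of {r : ι} {j : ι} (h : 0 < coef b r j) (k : ι) : 0 ≤ coef b r k := by
  rcases coef_sign b r with h1 | h1
  · exact h1.le k
  · have := h1.le j
    simp at this; omega

theorem coef_nonpos_of {r : ι} {j : ι} (h : coef b r j < 0) (k : ι) : coef b r k ≤ 0 := by
  rcases coef_sign b r with h1 | h1
  · have := h1.le j
    simp at this; omega
  · exact h1.le k

/-- weight which is positive on the positive roots -/
theorem wt_pos_iff {w : ι → ℤ} (hw : ∀ j, 0 ≤ w j) {r : ι} (h : 0 < wt b w r) :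
    ∀ k, 0 ≤ coef b r k := by
  obtain ⟨j, hj, hj2⟩ : ∃ j ∈ b.support, 0 < w j * coef b r j := by
    by_contra hcon
    push Not at hcon
    have := Finset.sum_nonpos hcon
    unfold wt at h; omega
  have : 0 < coef b r j := by
    by_contra hcon
    push Not at hcon
    have := mul_nonpos_of_nonneg_of_nonpos (hw j) hcon
    omega
  exact coef_nonneg_of b this

theorem wt_neg_iff {w : ι → ℤ} (hw : ∀ j, 0 ≤ w j) {r : ι} (h : wt b w r < 0) :
    ∀ k, coef b r k ≤ 0 := by
  obtain ⟨j, hj, hj2⟩ : ∃ j ∈ b.support, w j * coef b r j < 0 := by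
    by_contra hcon
    push Not at hcon
    have := Finset.sum_nonneg hcon
    unfold wt at h; omega
  have : coef b r j < 0 := by
    by_contra hcon
    push Not at hcon
    have := mul_nonneg (hw j) hcon
    omega
  exact coef_nonpos_of b this

/-- the height -/
noncomputable def ht (r : ι) : ℤ := wt b 1 r

open Classical in
/-- the height without the coordinate `i` -/
noncomputable def hti (i r : ι) : ℤ := wt b (fun j => if j = i then 0 else 1) r

theorem exists_coef_ne (r : ι) : ∃ j ∈ b.support, coef b r j ≠ 0 := by
  by_contra hcon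
  push Not at hcon
  have h := root_eq b r
  rw [Finset.sum_eq_zero (fun j hj => by rw [hcon j hj, zero_smul])] at h
  exact P.ne_zero r h

theorem ht_ne (r : ι) : ht b r ≠ 0 := by
  obtain ⟨j, hj, hj2⟩ := exists_coef_ne b r
  unfold ht wt
  simp only [Pi.one_apply, one_mul]
  rcases lt_or_gt_of_ne hj2 with h | h
  · exact (Finset.sum_neg' (fun k _ => coef_nonpos_of b h k) ⟨j, hj, h⟩).ne
  · exact (Finset.sum_pos' (fun k _ => coef_nonneg_of b h k) ⟨j, hj, h⟩).ne'

theorem ht_pos_of_hti {i r : ι} (h : 1 ≤ hti b i r) : 1 ≤ ht b r := by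
  classical
  have h1 := wt_pos_iff b (w := fun j => if j = i then 0 else 1)
    (fun j => by by_cases h : j = i <;> simp [h]) (r := r) (by
      unfold hti at h; convert lt_of_lt_of_le Int.zero_lt_one h)
  have h2 : 0 ≤ ht b r := by
    unfold ht wt; exact Finset.sum_nonneg fun j _ => by simpa using h1 j
  have := ht_ne b r
  omega

/-- a positive root of zero height outside `i` is `i` -/
theorem hti_pos_of_ht [Finite ι] [IsDomain R] [P.IsReduced] [Module.IsTorsionFree R M] {i r : ι}
    (hi : i ∈ b.support) (h : 1 ≤ ht b r) (hr : r ≠ i) : 1 ≤ hti b i r := by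
  classical
  have h1 := wt_pos_iff b (w := 1) (fun j => by simp) (r := r) (by unfold ht at h; omega)
  by_contra hcon
  have h2 : hti b i r = 0 := by
    have : 0 ≤ hti b i r := by
      unfold hti wt
      refine Finset.sum_nonneg fun j _ => ?_
      by_cases hj : j = i <;> simp [hj, h1 j]
    omega
  have h3 : ∀ j ∈ b.support, j ≠ i → coef b r j = 0 := by
    intro j hj hji
    unfold hti wt at h2
    rw [Finset.sum_eq_zero_iff_of_nonneg] at h2
    · have := h2 j hj; simpa [hji] using this
    · intro j _
      by_cases hj : j = i <;> simp [hj, h1 j]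
  have h4 : P.root r = coef b r i • P.root i := by
    conv_lhs => rw [root_eq b r]
    rw [Finset.sum_eq_single_of_mem i hi]
    intro j hj hji
    rw [h3 j hj hji, zero_smul]
  have h5 : coef b r i ≠ 0 := by
    intro h0; rw [h0, zero_smul] at h4; exact P.ne_zero r h4
  have h6 : ¬ LinearIndependent R ![P.root r, P.root i] := by
    intro hli
    rw [LinearIndependent.pair_iff] at hli
    have := hli 1 (-(coef b r i : R)) (by
      rw [h4, one_smul, neg_smul, Int.cast_smul_eq_zsmul, add_neg_cancel])
    exact one_ne_zero this.1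
  rcases IsReduced.eq_or_eq_neg r i h6 with h7 | h7
  · exact hr (P.root.injective h7)
  · have h8 : P.root r = ∑ j ∈ b.support, (if j = i then (-1 : ℤ) else 0) • P.root j := by
      rw [Finset.sum_eq_single_of_mem i hi, h7]
      · simp
      · intro k _ hk; simp [hk]
    have h9 := coef_eq b h8 hi
    have h10 := h1 i
    rw [h9] at h10
    simp at h10

theorem hti_self {i : ι} (hi : i ∈ b.support) : hti b i i = 0 := by
  classical
  unfold hti wt
  refine Finset.sum_eq_zero fun j hj => ?_
  by_cases h : j = i
  · simp [h]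
  · rw [coef_simple b hi hj]; simp [h]

theorem ht_simple {i : ι} (hi : i ∈ b.support) : ht b i = 1 := by
  classical
  unfold ht wt
  rw [Finset.sum_eq_single_of_mem i hi]
  · rw [coef_simple b hi hi]; simp
  · intro j hj h; rw [coef_simple b hi hj]; simp [h]

/-- no root is a positive combination of `α_i` and `-α_j` -/
theorem no_mixed {i j k : ι} (hi : i ∈ b.support) (hj : j ∈ b.support) (hij : i ≠ j)
    {p q : ℤ} (hp : 0 < p) (hq : 0 < q) (h : P.root k = p • P.root i - q • P.root j) : False := by
  classical
  have h1 : P.root k = ∑ l ∈ b.support, ((if l = i then p else 0) - (if l = j then q else 0)) •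
      P.root l := by
    rw [h]
    simp_rw [sub_smul]
    rw [Finset.sum_sub_distrib, Finset.sum_eq_single_of_mem i hi,
      Finset.sum_eq_single_of_mem j hj]
    · simp
    · intro l _ hl; simp [hl]
    · intro l _ hl; simp [hl]
  have h2 := coef_eq b h1 hi
  have h3 := coef_eq b h1 hj
  simp only [if_true, hij, if_false, hij.symm] at h2 h3
  have := coef_nonneg_of b (r := k) (j := i) (by omega) j
  omega

end ChevT
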