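import Mathlib

/-!
Rank one computations in `SL_2(K)`.
-/

namespace ChevT

open Matrix

variable {K K' : Type*} [Field K] [Field K']

/-- `SL_2(K)` -/
abbrev SL2 (K : Type*) [Field K] := SpecialLinearGroup (Fin 2) K

/-- the entries -/
def ent (A : SL2 K) (i j : Fin 2) : K := (A : Matrix (Fin 2) (Fin 2) K) i j

/-- a matrix with given entries -/
def mk2 (a b c d : K) (h : a * d - b * c = 1) : SL2 K :=
  ⟨!![a, b; c, d], by rw [Matrix.det_fin_two_of]; exact h⟩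

@[simp] theorem ent_mk2_00 (a b c d : K) (h) : ent (mk2 a b c d h) 0 0 = a := rfl
@[simp] theorem ent_mk2_01 (a b c d : K) (h) : ent (mk2 a b c d h) 0 1 = b := rfl
@[simp] theorem ent_mk2_10 (a b c d : K) (h) : ent (mk2 a b c d h) 1 0 = c := rfl
@[simp] theorem ent_mk2_11 (a b c d : K) (h) : ent (mk2 a b c d h) 1 1 = d := rfl

theorem ent_mul (A B : SL2 K) (i j : Fin 2) :
    ent (A * B) i j = ent A i 0 * ent B 0 j + ent A i 1 * ent B 1 j := by
  have h : ((A * B : SL2 K) : Matrix (Fin 2) (Fin 2) K) =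
    (A : Matrix (Fin 2) (Fin 2) K) * (B : Matrix (Fin 2) (Fin 2) K) := rfl
  show ((A * B : SL2 K) : Matrix (Fin 2) (Fin 2) K) i j = _
  rw [h, Matrix.mul_apply, Fin.sum_univ_two]
  rfl

theorem ent_one_00 : ent (1 : SL2 K) 0 0 = 1 := by simp [ent]
theorem ent_one_01 : ent (1 : SL2 K) 0 1 = 0 := by simp [ent]
theorem ent_one_10 : ent (1 : SL2 K) 1 0 = 0 := by simp [ent]
theorem ent_one_11 : ent (1 : SL2 K) 1 1 = 1 := by simp [ent]

theorem ent_inv_00 (A : SL2 K) : ent A⁻¹ 0 0 = ent A 1 1 := by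
  simp [ent, Matrix.adjugate_fin_two]
theorem ent_inv_01 (A : SL2 K) : ent A⁻¹ 0 1 = -ent A 0 1 := by
  simp [ent, Matrix.adjugate_fin_two]
theorem ent_inv_10 (A : SL2 K) : ent A⁻¹ 1 0 = -ent A 1 0 := by
  simp [ent, Matrix.adjugate_fin_two]
theorem ent_inv_11 (A : SL2 K) : ent A⁻¹ 1 1 = ent A 0 0 := by
  simp [ent, Matrix.adjugate_fin_two]

theorem ent_det (A : SL2 K) : ent A 0 0 * ent A 1 1 - ent A 0 1 * ent A 1 0 = 1 := by
  have h := A.2
  rw [Matrix.det_fin_two] at h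
  exact h

theorem ext2 {A B : SL2 K} (h00 : ent A 0 0 = ent B 0 0)
    (h01 : ent A 0 1 = ent B 0 1) (h10 : ent A 1 0 = ent B 1 0) (h11 : ent A 1 1 = ent B 1 1) :
    A = B := by
  apply Subtype.ext
  ext i j
  fin_cases i <;> fin_cases j <;> assumption

/-- upper unitriangular matrices -/
def up (t : K) : SL2 K := mk2 1 t 0 1 (by ring)

/-- lower unitriangular matrices -/
def lo (t : K) : SL2 K := mk2 1 0 t 1 (by ring)

/-- diagonal matrices -/
def dg (s : Kˣ) : SL2 K := mk2 (s : K) 0 0 ((s⁻¹ : Kˣ) : K) (by simp)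

/-- field automorphism followed by conjugation with `diag(d,1)` -/
def tw (d : Kˣ) (ρ : K' ≃+* K) (A : SL2 K') : SL2 K :=
  mk2 (ρ (ent A 0 0)) (d * ρ (ent A 0 1)) (((d⁻¹ : Kˣ) : K) * ρ (ent A 1 0)) (ρ (ent A 1 1)) (by
    have h2 := congrArg ρ (ent_det A)
    rw [map_sub, map_mul, map_mul, map_one] at h2
    have h3 : (d : K) * ((d⁻¹ : Kˣ) : K) = 1 := by simp
    linear_combination h2 - (ρ (ent A 0 1) * ρ (ent A 1 0)) * h3)

theorem up_add (s t : K) : up (s + t) = up s * up t := by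
  apply ext2 <;> simp [ent_mul, up, add_comm]

theorem lo_add (s t : K) : lo (s + t) = lo s * lo t := by
  apply ext2 <;> simp [ent_mul, lo, add_comm]

theorem up_zero : up (0 : K) = 1 := by
  apply ext2 <;> simp [up, ent_one_00, ent_one_01, ent_one_10, ent_one_11]

theorem lo_zero : lo (0 : K) = 1 := by
  apply ext2 <;> simp [lo, ent_one_00, ent_one_01, ent_one_10, ent_one_11]

theorem up_neg (t : K) : up (-t) = (up t)⁻¹ := by
  rw [eq_inv_iff_mul_eq_one, ← up_add, neg_add_cancel, up_zero]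

theorem lo_neg (t : K) : lo (-t) = (lo t)⁻¹ := by
  rw [eq_inv_iff_mul_eq_one, ← lo_add, neg_add_cancel, lo_zero]

theorem dg_mul (s t : Kˣ) : dg (s * t) = dg s * dg t := by
  apply ext2 <;> simp [ent_mul, dg, mul_comm]

theorem dg_one : dg (1 : Kˣ) = 1 := by
  apply ext2 <;> simp [dg, ent_one_00, ent_one_01, ent_one_10, ent_one_11]

theorem dg_inv (s : Kˣ) : dg s⁻¹ = (dg s)⁻¹ := by
  rw [eq_inv_iff_mul_eq_one, ← dg_mul, inv_mul_cancel, dg_one]

/-- factorisation through the big cell -/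
theorem eq_lo_dg_up (A : SL2 K) (s : Kˣ) (h : ent A 0 0 = s) :
    ∃ y x : K, A = lo y * dg s * up x := by
  have hs : (s : K) ≠ 0 := s.ne_zero
  have hdet := ent_det A
  rw [h] at hdet
  have h3 : (s : K) * ((s⁻¹ : Kˣ) : K) = 1 := by simp
  refine ⟨ent A 1 0 * ((s⁻¹ : Kˣ) : K), ent A 0 1 * ((s⁻¹ : Kˣ) : K), ?_⟩
  apply ext2
  · simp [ent_mul, lo, dg, up, h]
  · simp only [ent_mul, lo, dg, up, ent_mk2_00, ent_mk2_01, ent_mk2_10, ent_mk2_11]
    linear_combination (-ent A 0 1) * h3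
  · simp only [ent_mul, lo, dg, up, ent_mk2_00, ent_mk2_01, ent_mk2_10, ent_mk2_11]
    linear_combination (-ent A 1 0) * h3
  · simp only [ent_mul, lo, dg, up, ent_mk2_00, ent_mk2_01, ent_mk2_10, ent_mk2_11]
    linear_combination (-ent A 1 1 - ent A 1 0 * ent A 0 1 * ((s⁻¹ : Kˣ) : K)) * h3 +
      ((s⁻¹ : Kˣ) : K) * hdet

/-- every matrix is in `U⁺ U⁻ T U⁺` -/
theorem eq_up_lo_dg_up (A : SL2 K) :
    ∃ (a b : K) (s : Kˣ) (c : K), A = up a * lo b * dg s * up c := by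
  by_cases h : ent A 0 0 = 0
  · have hdet := ent_det A
    rw [h] at hdet
    have h10 : ent A 1 0 ≠ 0 := by
      intro h0; rw [h0] at hdet; simp at hdet
    obtain ⟨y, x, hA⟩ := eq_lo_dg_up (up 1 * A) (Units.mk0 _ h10)
      (by simp [ent_mul, up, h])
    refine ⟨-1, y, Units.mk0 _ h10, x, ?_⟩
    rw [mul_assoc, mul_assoc, ← mul_assoc (lo y), ← hA, up_neg, inv_mul_cancel_left]
  · obtain ⟨y, x, hA⟩ := eq_lo_dg_up A (Units.mk0 _ h) rfl
    refine ⟨0, y, Units.mk0 _ h, x, ?_⟩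
    rw [up_zero, one_mul]; exact hA

/-- `dg s` is a product of unitriangular matrices -/
theorem dg_eq (s : Kˣ) : dg s = up ((s : K)) * lo (-((s⁻¹ : Kˣ) : K)) * up (s : K) *
    (up (-1) * lo 1 * up (-1)) := by
  have h3 : (s : K) * ((s⁻¹ : Kˣ) : K) = 1 := by simp
  apply ext2
  · simp [ent_mul, lo, dg, up]
  · simp [ent_mul, lo, dg, up]
  · simp [ent_mul, lo, dg, up]
  · simp [ent_mul, lo, dg, up]

/-- two homomorphisms agreeing on unitriangular matrices are equal -/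
theorem hom_ext {G : Type*} [Group G] {f g : SL2 K →* G}
    (h1 : ∀ t, f (up t) = g (up t)) (h2 : ∀ t, f (lo t) = g (lo t)) : f = g := by
  ext A
  obtain ⟨a, b, s, c, rfl⟩ := eq_up_lo_dg_up A
  simp only [map_mul, dg_eq, h1, h2]

/-- membership in a subgroup can be tested on unitriangular matrices -/
theorem mem_of_up_lo {G : Type*} [Group G] {f : SL2 K →* G}
    {H : Subgroup G} (h1 : ∀ t, f (up t) ∈ H) (h2 : ∀ t, f (lo t) ∈ H) (A) : f A ∈ H := by
  obtain ⟨a, b, s, c, rfl⟩ := eq_up_lo_dg_up A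
  have hd : f (dg s) ∈ H := by
    rw [dg_eq]
    simp only [map_mul]
    exact H.mul_mem (H.mul_mem (H.mul_mem (h1 _) (h2 _)) (h1 _)) (H.mul_mem (H.mul_mem
      (h1 _) (h2 _)) (h1 _))
  simp only [map_mul]
  exact H.mul_mem (H.mul_mem (H.mul_mem (h1 a) (h2 b)) hd) (h1 c)

theorem tw_mul (d : Kˣ) (ρ : K' ≃+* K) (A B : SL2 K') :
    tw d ρ (A * B) = tw d ρ A * tw d ρ B := by
  have h3 : (d : K) * ((d⁻¹ : Kˣ) : K) = 1 := by simp
  apply ext2
  · simp only [tw, ent_mul, ent_mk2_00, ent_mk2_01, ent_mk2_10, ent_mk2_11, map_add, map_mul]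
    linear_combination -(ρ (ent A 0 1) * ρ (ent B 1 0)) * h3
  · simp only [tw, ent_mul, ent_mk2_00, ent_mk2_01, ent_mk2_10, ent_mk2_11, map_add, map_mul]
    ring
  · simp only [tw, ent_mul, ent_mk2_00, ent_mk2_01, ent_mk2_10, ent_mk2_11, map_add, map_mul]
    ring
  · simp only [tw, ent_mul, ent_mk2_00, ent_mk2_01, ent_mk2_10, ent_mk2_11, map_add, map_mul]
    linear_combination -(ρ (ent A 1 0) * ρ (ent B 0 1)) * h3

/-- `tw` as a homomorphism -/
def twHom (d : Kˣ) (ρ : K' ≃+* K) : SL2 K' →* SL2 K := MonoidHom.mk' (tw d ρ) (tw_mul d ρ)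

@[simp] theorem twHom_apply (d : Kˣ) (ρ : K' ≃+* K) (A : SL2 K') :
    twHom d ρ A = tw d ρ A := rfl

theorem tw_inv (d : Kˣ) (ρ : K' ≃+* K) (A : SL2 K') : tw d ρ A⁻¹ = (tw d ρ A)⁻¹ :=
  map_inv (twHom d ρ) A

theorem tw_up (d : Kˣ) (ρ : K' ≃+* K) (t : K') : tw d ρ (up t) = up ((d : K) * ρ t) := by
  apply ext2 <;> simp [tw, up]

theorem tw_lo (d : Kˣ) (ρ : K' ≃+* K) (t : K') :
    tw d ρ (lo t) = lo (((d⁻¹ : Kˣ) : K) * ρ t) := by
  apply ext2 <;> simp [tw, lo]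

theorem tw_tw (d : Kˣ) (ρ : K' ≃+* K) (e : Kˣ) (A : SL2 K') :
    tw e (RingEquiv.refl K) (tw d ρ A) = tw (e * d) ρ A := by
  apply ext2
  · simp [tw]
  · simp [tw, mul_assoc]
  · simp only [tw, ent_mk2_10, RingEquiv.refl_apply, mul_inv, Units.val_mul]; ring
  · simp [tw]

/-- composition of two twists -/
theorem tw_comp {K'' : Type*} [Field K''] (d : Kˣ) (ρ : K' ≃+* K) (e : K''ˣ) (τ : K ≃+* K'')
    (A : SL2 K') :
    tw e τ (tw d ρ A) = tw (e * Units.map (τ : K →* K'') d) (ρ.trans τ) A := by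
  apply ext2
  · simp [tw]
  · simp [tw, mul_assoc]
  · simp only [tw, ent_mk2_10, mul_inv, Units.val_mul, map_mul, RingEquiv.coe_trans,
      Function.comp_apply, ← map_inv, Units.coe_map, MonoidHom.coe_coe]
    ring
  · simp [tw]

theorem tw_one (A : SL2 K) : tw 1 (RingEquiv.refl K) A = A := by
  apply ext2 <;> simp [tw]

/-- **Rank one, graph part trivial.** -/
theorem rank_one_a (ρ : K ≃+* K) (hρ : ∃ z, ρ z ≠ z) (c : Kˣ) (y x : K) (s : K) :
    ∃ h : SL2 K, ent (h * (lo y * up x) * (tw c ρ h)⁻¹) 0 0 = s := by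
  have key : ∀ h : SL2 K, ent (h * (lo y * up x) * (tw c ρ h)⁻¹) 0 0 =
      (ent h 0 0 + ent h 0 1 * y) * ρ (ent h 1 1) -
        (ent h 0 0 * x + ent h 0 1 * (1 + y * x)) * (((c⁻¹ : Kˣ) : K) * ρ (ent h 1 0)) := by
    intro h
    simp only [ent_mul, ent_inv_00, ent_inv_10, tw, up, lo, ent_mk2_00, ent_mk2_01, ent_mk2_10,
      ent_mk2_11]
    ring
  have hc : ((c⁻¹ : Kˣ) : K) ≠ 0 := Units.ne_zero _
  by_cases hx : x = 0
  · by_cases hy : y = 0
    · subst hx; subst hy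
      -- find `q` with `ρ q ≠ c⁻¹ q`
      obtain ⟨q, hq⟩ : ∃ q : K, ρ q - ((c⁻¹ : Kˣ) : K) * q ≠ 0 := by
        by_contra hcon
        push Not at hcon
        have h1 := hcon 1
        rw [map_one, mul_one, sub_eq_zero] at h1
        obtain ⟨z, hz⟩ := hρ
        have h2 := hcon z
        rw [← h1, one_mul, sub_eq_zero] at h2
        exact hz h2
      -- row 1 = (1,q), row 2 = (λ, 1 + λ q)
      obtain ⟨l, hl⟩ : ∃ l : K, ρ l * (ρ q - ((c⁻¹ : Kˣ) : K) * q) = s - 1 :=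
        ⟨ρ.symm ((s - 1) / (ρ q - ((c⁻¹ : Kˣ) : K) * q)), by
          rw [RingEquiv.apply_symm_apply]; field_simp⟩
      refine ⟨mk2 1 q l (1 + l * q) (by ring), ?_⟩
      rw [key]
      simp only [ent_mk2_00, ent_mk2_01, ent_mk2_10, ent_mk2_11, map_add, map_one, map_mul]
      linear_combination hl
    · subst hx
      -- row 1 = (0,1), row 2 = (-1, λ)
      obtain ⟨l, hl⟩ : ∃ l : K, y * ρ l + ((c⁻¹ : Kˣ) : K) = s :=
        ⟨ρ.symm ((s - ((c⁻¹ : Kˣ) : K)) / y), by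
          rw [RingEquiv.apply_symm_apply, mul_div_cancel₀ _ hy]; ring⟩
      refine ⟨mk2 0 1 (-1) l (by ring), ?_⟩
      rw [key]
      simp only [ent_mk2_00, ent_mk2_01, ent_mk2_10, ent_mk2_11, map_neg, map_one]
      linear_combination hl
  · -- row 1 = (1,0), row 2 = (λ,1)
    obtain ⟨l, hl⟩ : ∃ l : K, 1 - x * (((c⁻¹ : Kˣ) : K) * ρ l) = s :=
      ⟨ρ.symm ((1 - s) / (x * ((c⁻¹ : Kˣ) : K))), by
        rw [RingEquiv.apply_symm_apply, ← mul_assoc, mul_div_cancel₀ _ (mul_ne_zero hx hc)]; ring⟩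
    refine ⟨mk2 1 0 l 1 (by ring), ?_⟩
    rw [key]
    simp only [ent_mk2_00, ent_mk2_01, ent_mk2_10, ent_mk2_11, map_one]
    linear_combination hl

/-- **Rank one, graph part nontrivial.** -/
theorem rank_one_b (ρ : K ≃+* K') (c : K'ˣ) (y : K) (x : K') (s : K) :
    ∃ h : SL2 K, ent (h * lo y) 0 0 = s ∧ ent (up x * (tw c ρ h)⁻¹) 0 0 = 1 := by
  have key1 : ∀ h : SL2 K, ent (h * lo y) 0 0 = ent h 0 0 + ent h 0 1 * y := by
    intro h
    simp only [ent_mul, lo, ent_mk2_00, ent_mk2_10]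
    ring
  have key2 : ∀ h : SL2 K, ent (up x * (tw c ρ h)⁻¹) 0 0 =
      ρ (ent h 1 1) - x * (((c⁻¹ : K'ˣ) : K') * ρ (ent h 1 0)) := by
    intro h
    simp only [ent_mul, ent_inv_00, ent_inv_10, tw, up, ent_mk2_00, ent_mk2_01, ent_mk2_10,
      ent_mk2_11]
    ring
  by_cases hy : y = 0
  · subst hy
    set k : K := ρ.symm (x * ((c⁻¹ : K'ˣ) : K')) with hk
    have hk' : ρ k = x * ((c⁻¹ : K'ˣ) : K') := by rw [hk, RingEquiv.apply_symm_apply]
    refine ⟨mk2 s (s - 1 + s * k) 1 (1 + k) (by ring), ?_, ?_⟩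
    · rw [key1]; simp
    · rw [key2]
      simp only [ent_mk2_10, ent_mk2_11, map_one, map_add, hk']
      ring
  · refine ⟨up ((s - 1) / y), ?_, ?_⟩
    · rw [key1]; simp only [up, ent_mk2_00, ent_mk2_01]; rw [div_mul_cancel₀ _ hy]; ring
    · rw [key2]; simp [up]

end ChevT
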