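import Pool.Agent.Helper49.Chev.MainC

/-!
Standard automorphisms and the final statement.
-/

namespace ChevT

open RootPairing CosetT
open scoped Pointwise

/-- `α` is a standard automorphism of a group with root data: for a permutation `π` of the roots,
induced by an additive map of the ambient space and preserving the set of simple roots (a symmetry
of the Dynkin diagram), and an automorphism `σ` of the base field `F`, it maps `φ r (A)` to
`φ (π r) (diag(c, 1) τ(A) diag(c, 1)⁻¹)`, where `c ∈ (K (π r))ˣ` and the field isomorphism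
`τ : K r → K (π r)` extends `σ` (both may depend on `r`). -/
structure IsStandard {ι R M N : Type*} [CommRing R] [AddCommGroup M] [Module R M]
    [AddCommGroup N] [Module R N] {P : RootPairing ι R M N} [P.IsCrystallographic] {b : P.Base}
    {F : Type*} [Field F] {K : ι → Type*} [∀ r, Field (K r)] [∀ r, Algebra F (K r)]
    {G : Type*} [Group G] (D : RootData P b F K G) (π : Equiv.Perm ι) (σ : F ≃+* F)
    (α : MulAut G) : Prop where
  /-- `π` is induced by an additive map -/
  additive : ∃ θ : M →+ M, ∀ r, P.root (π r) = θ (P.root r)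
  /-- `π` preserves the simple roots -/
  simple : ∀ i ∈ b.support, π i ∈ b.support
  /-- the action of `α` -/
  act : ∀ r, ∃ (c : (K (π r))ˣ) (τ : K r ≃+* K (π r)),
    (∀ a : F, τ (algebraMap F (K r) a) = algebraMap F (K (π r)) (σ a)) ∧
    ∀ A, α (D.φ r A) = D.φ (π r) (tw c τ A)

theorem standard_main {ι R M N : Type*} [Fintype ι] [CommRing R] [CharZero R] [IsDomain R]
    [AddCommGroup M] [Module R M] [AddCommGroup N] [Module R N] {P : RootPairing ι R M N}
    [P.IsCrystallographic] [P.IsReduced] [P.IsRootSystem] {b : P.Base}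
    {F : Type*} [Field F] [Finite F] {K : ι → Type*} [∀ r, Field (K r)] [∀ r, Finite (K r)]
    [∀ r, Algebra F (K r)] {G : Type*} [Group G] (D : RootData P b F K G)
    {π : Equiv.Perm ι} {σ : F ≃+* F} {α : MulAut G} (h : IsStandard D π σ α)
    (hσ : ∃ z, σ (σ z) ≠ z)
    (hq : ∀ j ∈ b.support, orderOf π * ∑ r, Module.finrank F (K r) * |P.pairingIn ℤ r j| <
      2 * ((Nat.card {z : F // σ z = z} : ℤ) - 1)) :
    ∃ x ∈ coset α, cls x * cls x = coset (α ^ 2) := by
  obtain ⟨⟨θ, hπ⟩, hs, hact⟩ := h
  choose c τ hτ hα using hact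
  exact D.main α π θ σ τ c hα hτ hπ hs hσ hq

end ChevT
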